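import Mathlib
import Pool.Agent.Lib.MP_eacabd_co.Wide8.Filt
import Pool.Agent.Lib.MP_eacabd_co.Wide8.Bridge

/-!
Switching of the inverse function: statements of the modules.
-/

set_option autoImplicit false

namespace Pool.Agent.Lib.MP_eacabd_co.Inv8

open Finset Pool.Agent.Lib.MP_eacabd_co Pool.Agent.Lib.MP_eacabd_co.Gold8
open Pool.Agent.Lib.MP_eacabd_co.Wide8

theorem c1 (n : ℕ) : Nat.Coprime 1 n := Nat.coprime_one_left n

/-- the base point of a block -/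
def Zc {F : Type} [Field F] (a b : F) : F := a * b * (a + b + 1)

/-- `1, a, b` are independent over the prime field (characteristic two) -/
def Ind {F : Type} [Field F] (a b : F) : Prop :=
  a ≠ 0 ∧ a ≠ 1 ∧ b ≠ 0 ∧ b ≠ 1 ∧ a + b ≠ 0 ∧ a + b ≠ 1

/-- the relation on the blocks, in the coordinate `z = 1 / x` -/
def Blk {F : Type} [Field F] (g : F → F) : Prop := ∀ a b : F, Ind a b →
  g (Zc a b) + g (Zc a b + a ^ 2) + g (Zc a b + b ^ 2) + g (Zc a b + a ^ 2 + b ^ 2 + 1) = 0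

/-- the relation on the blocks of the inverse function -/
def BlkX {F : Type} [Field F] (f : F → F) : Prop := ∀ x y z w : F,
  x ≠ y → x ≠ z → x ≠ w → y ≠ z → y ≠ w → z ≠ w → x + y + z + w = 0 →
  x⁻¹ + y⁻¹ + z⁻¹ + w⁻¹ = 1 → f x + f y + f z + f w = 0

/-- (SUM) -/
def StSum : Prop := ∀ (n : ℕ) [NeZero n] (F : Type) [Field F] [Fintype F] [DecidableEq F]
    [CharP F 2] (hF : Fintype.card F = 2 ^ n) (d : ℕ) (g : F → F), d < n → Dg (c1 n) hF d g →
    ∑ x, g x = 0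

/-- (SUPP) functions of small degree with small support vanish -/
def StSupp : Prop := ∀ (n : ℕ) [NeZero n] (F : Type) [Field F] [Fintype F] [DecidableEq F]
    [CharP F 2] (hF : Fintype.card F = 2 ^ n) (d : ℕ) (g : F → F), Dg (c1 n) hF d g →
    (d + 2 ≤ n → (∀ x, x ≠ 0 → x ≠ 1 → g x = 0) → ∀ x, g x = 0) ∧
    (d + 3 ≤ n → ∀ a : F, a ≠ 0 → a ≠ 1 →
      (∀ x, x ≠ 0 → x ≠ 1 → x ≠ a → x ≠ a + 1 → g x = 0) → ∀ x, g x = 0)

/-- (DEG) derivatives and compositions with affine maps -/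
def StDeg : Prop := ∀ (n : ℕ) [NeZero n] (F : Type) [Field F] [Fintype F] [DecidableEq F]
    [CharP F 2] (hF : Fintype.card F = 2 ^ n) (d : ℕ) (g : F → F),
    (Dg (c1 n) hF (d + 1) g → ∀ c : F, Dg (c1 n) hF d (fun x => g x + g (x + c))) ∧
    (Dg (c1 n) hF d g → ∀ a b c : F, Dg (c1 n) hF d (fun x => g (a * x ^ 2 + b * x + c)))

/-- the relation on all pairs -/
def Full {F : Type} [Field F] (g : F → F) : Prop := ∀ a b : F,
  g (Zc a b) + g (Zc a b + a ^ 2) + g (Zc a b + b ^ 2) + g (Zc a b + a ^ 2 + b ^ 2) = 0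

/-- (J) -/
def StJ : Prop := ∀ (n : ℕ) [NeZero n] (F : Type) [Field F] [Fintype F] [DecidableEq F]
    [CharP F 2] (hF : Fintype.card F = 2 ^ n) (k : ℕ) (g : F → F), k + 3 ≤ n →
    Dg (c1 n) hF (k + 1) g → Blk g → Full g

/-- (MS) the top coefficients of a product of powers -/
def StMS : Prop := ∀ (n : ℕ) [NeZero n] (F : Type) [Field F] [Fintype F] [DecidableEq F]
    [CharP F 2] (hF : Fintype.card F = 2 ^ n) (I : Finset (ZMod n)) (φ : ZMod n → ZMod n)
    (U : Finset (ZMod n)), I.card ≤ U.card →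
    Wide8.cf (c1 n) hF (fun x : F => ∏ j ∈ I, fr 1 (φ j) x) U =
      if Set.InjOn φ (I : Set (ZMod n)) ∧ I.image φ = U then 1 else 0

/-- the six types of a position: outside, `a^2`, `b^2`, `a^2 b`, `a b^2`, `a b` -/
inductive T6 : Type
  | o : T6
  | a : T6
  | b : T6
  | p : T6
  | q : T6
  | r : T6
  deriving DecidableEq

instance : Fintype T6 :=
  ⟨{T6.o, T6.a, T6.b, T6.p, T6.q, T6.r}, by intro x; cases x <;> simp⟩

/-- positions outside `o` -/
def sup {n : ℕ} [NeZero n] (ψ : ZMod n → T6) : Finset (ZMod n) := univ.filter (fun j => ψ j ≠ T6.o)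

/-- positions with a factor of the first variable -/
def iA {n : ℕ} [NeZero n] (ψ : ZMod n → T6) : Finset (ZMod n) :=
  univ.filter (fun j => ψ j ≠ T6.o ∧ ψ j ≠ T6.b)

/-- positions with a factor of the second variable -/
def iB {n : ℕ} [NeZero n] (ψ : ZMod n → T6) : Finset (ZMod n) :=
  univ.filter (fun j => ψ j ≠ T6.o ∧ ψ j ≠ T6.a)

/-- the exponents of the first variable -/
def mA {n : ℕ} (ψ : ZMod n → T6) (j : ZMod n) : ZMod n := if ψ j = T6.a ∨ ψ j = T6.p then j + 1 else j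

/-- the exponents of the second variable -/
def mB {n : ℕ} (ψ : ZMod n → T6) (j : ZMod n) : ZMod n := if ψ j = T6.b ∨ ψ j = T6.q then j + 1 else j

/-- the configurations which contribute to the coefficient `(U, V)` -/
def Cfg {n : ℕ} [NeZero n] (U V : Finset (ZMod n)) (ψ : ZMod n → T6) : Prop :=
  (∃ j, ψ j = T6.a) ∧ (∃ j, ψ j = T6.b) ∧
  Set.InjOn (mA ψ) (iA ψ : Set (ZMod n)) ∧ (iA ψ).image (mA ψ) = U ∧
  Set.InjOn (mB ψ) (iB ψ : Set (ZMod n)) ∧ (iB ψ).image (mB ψ) = V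

open Classical in
/-- (COEF) the coefficients of the full relation -/
def StCoef : Prop := ∀ (n : ℕ) [NeZero n] (F : Type) [Field F] [Fintype F] [DecidableEq F]
    [CharP F 2] (hF : Fintype.card F = 2 ^ n) (k : ℕ) (g : F → F), 2 ≤ n →
    Dg (c1 n) hF (k + 1) g → Full g → ∀ U V : Finset (ZMod n), U.card = k → V.card = k →
    ∑ ψ : ZMod n → T6, (if Cfg U V ψ then Wide8.cf (c1 n) hF g (sup ψ) else 0) = 0

/-- (COMB) there is a coefficient with exactly one configuration -/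
def StCombI : Prop := ∀ (n : ℕ) [NeZero n], 3 ≤ n → ∀ J : Finset (ZMod n), 2 ≤ J.card →
    J.card < n → ∃ (U V : Finset (ZMod n)) (ψ₀ : ZMod n → T6), U.card + 1 = J.card ∧
      V.card + 1 = J.card ∧ Cfg U V ψ₀ ∧ sup ψ₀ = J ∧
      ∀ ψ : ZMod n → T6, Cfg U V ψ → (sup ψ).card ≤ J.card → ψ = ψ₀

/-- (ONE) -/
def StOne : Prop := ∀ (n : ℕ) [NeZero n] (F : Type) [Field F] [Fintype F] [DecidableEq F]
    [CharP F 2] (hF : Fintype.card F = 2 ^ n) (g : F → F), 3 ≤ n →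
    Dg (c1 n) hF (n - 2) g → Blk g → Dg (c1 n) hF 1 g

/-- (TOP) Boolean functions with the relation on the blocks of the inverse function -/
def StTopI : Prop := ∀ (n : ℕ) [NeZero n] (F : Type) [Field F] [Fintype F] [DecidableEq F]
    [CharP F 2], Fintype.card F = 2 ^ n → 3 ≤ n → ∀ f : F → F, (∀ x, f x = 0 ∨ f x = 1) →
    BlkX f → ∃ v b c : F, tr n v = 0 ∧ (c = 0 ∨ c = 1) ∧
      ∀ x, f x = tr n (v * x⁻¹) + tr n (b * x) + c

/-- (EA) one coordinate of a function EA-equivalent to the inverse function is changed -/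
def StInvEA : Prop := ∀ (n : ℕ), 3 ≤ n → ∀ (F : Type) [Field F] [Fintype F],
    Fintype.card F = 2 ^ n → ∀ (u : F) (G₀ f G : F → F), EA G₀ (fun x => x⁻¹) →
    (∀ x, f x = 0 ∨ f x = 1) → (∀ x, G x = G₀ x + u * f x) → IsAPN G → EA G (fun x => x⁻¹)

/-- (DIR) directions with a zero component, functions CCZ-equivalent to the inverse function -/
def StInvDir : Prop := ∀ (n : ℕ), 3 ≤ n → ∀ (F : Type) [Field F] [Fintype F],
    Fintype.card F = 2 ^ n → ∀ (L : (F × F) ≃+ (F × F)) (c : F × F) (u : F) (G₀ f G : F → F),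
    (fun p => L p + c) '' {p : F × F | p.2 = (p.1)⁻¹} = {p : F × F | p.2 = G₀ p.1} →
    ((L.symm (0, u)).1 = 0 ∨ (L.symm (0, u)).2 = 0) → (∀ x, f x = 0 ∨ f x = 1) →
    (∀ x, G x = G₀ x + u * f x) → IsAPN G → CCZ G (fun x => x⁻¹)

end Pool.Agent.Lib.MP_eacabd_co.Inv8
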