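import Mathlib
import Pool.Agent.Lib.MP_eacabd_co.Inv8.StmtsI
import Pool.Agent.Lib.MP_eacabd_co.Gold8.Switch8

/-!
Switching of the inverse function: any number of steps.
-/

set_option autoImplicit false

namespace Pool.Agent.Lib.MP_eacabd_co.Inv8

open Pool.Agent.Lib.MP_eacabd_co Pool.Agent.Lib.MP_eacabd_co.Gold8
open Pool.Agent.Lib.MP_eacabd_co.Wide8

/-- any number of EA-equivalences and changes of one coordinate function -/
theorem invChain (hE : StInvEA) : ∀ n : ℕ, 3 ≤ n →
    ∀ (F : Type) [Field F] [Fintype F], Fintype.card F = 2 ^ n →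
    ∀ G : F → F, Relation.ReflTransGen Step (fun x => x⁻¹) G →
    EA G (fun x => x⁻¹) ∧ ¬ PropN G := by
  intro n hn F _ _ hF G hG
  have h : EA G (fun x => x⁻¹) := by
    induction hG with
    | refl => exact EA.refl _
    | tail _ h1 ih =>
      rcases h1 with h1 | ⟨h1, u, f, hf, h2⟩
      · exact EA.trans h1 ih
      · exact hE n hn F hF u _ f _ ih hf h2 h1
  refine ⟨h, fun hN => hN.1 (2 ^ n - 2) ?_⟩
  have h2 : (fun x : F => x⁻¹) = fun x => x ^ (2 ^ n - 2) := by
    funext x
    have h3 : 2 ^ n = (2 ^ n - 2) + 2 := by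
      have : 2 ^ 3 ≤ 2 ^ n := Nat.pow_le_pow_right (by norm_num) hn
      omega
    rcases eq_or_ne x 0 with hx | hx
    · rw [hx, inv_zero, zero_pow]
      have : 2 ^ 3 ≤ 2 ^ n := Nat.pow_le_pow_right (by norm_num) hn
      omega
    · have h4 : x ^ (2 ^ n) = x := by
        rw [← hF]
        exact FiniteField.pow_card x
      rw [h3, pow_add] at h4
      have h5 : x ^ (2 ^ n - 2) * x = 1 := by
        have h6 : x ^ (2 ^ n - 2) * x * x = 1 * x := by
          rw [mul_assoc, ← sq, h4, one_mul]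
        exact mul_right_cancel₀ hx h6
      exact (eq_inv_of_mul_eq_one_left h5).symm
  rw [← h2]
  exact BrAux.ccz_of_ea h

end Pool.Agent.Lib.MP_eacabd_co.Inv8
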