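import Mathlib
import Pool.Agent.Lib.MP_eacabd_co.Inv8.StmtsI

/-!
Switching of the inverse function: the coefficients of the full relation.
-/

set_option autoImplicit false
set_option linter.unusedSectionVars false

namespace Pool.Agent.Lib.MP_eacabd_co.Inv8

open Finset Pool.Agent.Lib.MP_eacabd_co Pool.Agent.Lib.MP_eacabd_co.Gold8
open Pool.Agent.Lib.MP_eacabd_co.Wide8

section

variable {n : ℕ} [NeZero n] {F : Type} [Field F] [Fintype F] [DecidableEq F] [CharP F 2]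

/-- the factor of a position -/
def tm (e d a b : F) (t : T6) (j : ZMod n) : F :=
  match t with
  | T6.o => 1
  | T6.a => e * fr 1 (j + 1) a
  | T6.b => d * fr 1 (j + 1) b
  | T6.p => fr 1 (j + 1) a * fr 1 j b
  | T6.q => fr 1 j a * fr 1 (j + 1) b
  | T6.r => fr 1 j a * fr 1 j b

theorem fr_pow_two (hF : Fintype.card F = 2 ^ n) (j : ZMod n) (x : F) :
    fr 1 j (x ^ 2) = fr 1 (j + 1) x := by
  rw [fr_succ hF, pow_one]

theorem fr_Zc (hF : Fintype.card F = 2 ^ n) (e d a b : F) (he : e = 0 ∨ e = 1)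
    (hd : d = 0 ∨ d = 1) (j : ZMod n) :
    fr 1 j (Zc a b + e * a ^ 2 + d * b ^ 2) = ∑ t ∈ univ.erase T6.o, tm e d a b t j := by
  have h1 : (univ.erase T6.o : Finset T6) = {T6.a, T6.b, T6.p, T6.q, T6.r} := by
    ext t
    cases t <;> simp
  have h2 : fr 1 j e = e := by
    rcases he with h | h
    · rw [h, fr_zero']
    · rw [h, fr_one']
  have h3 : fr 1 j d = d := by
    rcases hd with h | h
    · rw [h, fr_zero']
    · rw [h, fr_one']
  have h4 : Zc a b = a ^ 2 * b + a * b ^ 2 + a * b := by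
    unfold Zc
    ring
  rw [h1, h4, fr_add, fr_add, fr_add, fr_add, fr_mul, fr_mul, fr_mul, fr_mul, fr_mul, h2, h3,
    fr_pow_two hF, fr_pow_two hF]
  rw [sum_insert (by decide), sum_insert (by decide), sum_insert (by decide),
    sum_insert (by decide), sum_singleton]
  simp only [tm]
  ring

/-- the monomial of a configuration -/
def mo (a b : F) (ψ : ZMod n → T6) : F :=
  (∏ j ∈ iA ψ, fr 1 (mA ψ j) a) * ∏ j ∈ iB ψ, fr 1 (mB ψ j) b

theorem prod_tm (e d a b : F) (ψ : ZMod n → T6) :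
    ∏ j, tm e d a b (ψ j) j
      = (∏ j, (if ψ j = T6.a then e else 1)) * (∏ j, (if ψ j = T6.b then d else 1)) * mo a b ψ := by
  unfold mo iA iB
  rw [prod_filter, prod_filter, ← prod_mul_distrib, ← prod_mul_distrib, ← prod_mul_distrib]
  refine prod_congr rfl fun j _ => ?_
  cases h : ψ j <;> simp [tm, mA, mB, h]

theorem prod_ite_zero (ψ : ZMod n → T6) (t : T6) :
    (∏ j, (if ψ j = t then (0 : F) else 1)) = if (∃ j, ψ j = t) then 0 else 1 := by
  by_cases h : ∃ j, ψ j = t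
  · rw [if_pos h]
    obtain ⟨j, hj⟩ := h
    exact prod_eq_zero (mem_univ j) (if_pos hj)
  · rw [if_neg h]
    refine prod_eq_one fun j _ => ?_
    rw [if_neg]
    intro hj
    exact h ⟨j, hj⟩

theorem prod_ite_one (ψ : ZMod n → T6) (t : T6) :
    (∏ j, (if ψ j = t then (1 : F) else 1)) = 1 := by
  refine prod_eq_one fun j _ => ?_
  rw [ite_self]

theorem expand_one (hF : Fintype.card F = 2 ^ n) (g : F → F) (e d a b : F) (he : e = 0 ∨ e = 1)
    (hd : d = 0 ∨ d = 1) :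
    g (Zc a b + e * a ^ 2 + d * b ^ 2)
      = ∑ ψ : ZMod n → T6, Wide8.cf (c1 n) hF g (sup ψ) * ∏ j, tm e d a b (ψ j) j := by
  rw [eq_sum (c1 n) hF g (Zc a b + e * a ^ 2 + d * b ^ 2)]
  rw [← Finset.sum_fiberwise (univ : Finset (ZMod n → T6)) (fun ψ => sup ψ)]
  refine sum_congr rfl fun M _ => ?_
  have h1 : Wide8.X 1 M (Zc a b + e * a ^ 2 + d * b ^ 2)
      = ∏ j : ZMod n, ∑ t ∈ (if j ∈ M then univ.erase T6.o else {T6.o}), tm e d a b t j := by
    unfold Wide8.X
    have h2 : ∀ j : ZMod n, (∑ t ∈ (if j ∈ M then univ.erase T6.o else {T6.o}), tm e d a b t j)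
        = if j ∈ M then fr 1 j (Zc a b + e * a ^ 2 + d * b ^ 2) else 1 := by
      intro j
      by_cases hj : j ∈ M
      · rw [if_pos hj, if_pos hj, fr_Zc hF e d a b he hd j]
      · rw [if_neg hj, if_neg hj, sum_singleton]
        rfl
    rw [prod_congr rfl fun j _ => h2 j, prod_ite_mem, univ_inter]
  rw [h1, prod_univ_sum, mul_sum]
  have h3 : (Fintype.piFinset fun j : ZMod n => (if j ∈ M then univ.erase T6.o else {T6.o}))
      = univ.filter (fun ψ : ZMod n → T6 => sup ψ = M) := by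
    ext ψ
    rw [Fintype.mem_piFinset, mem_filter]
    constructor
    · intro h
      refine ⟨mem_univ _, ?_⟩
      ext j
      unfold sup
      rw [mem_filter]
      have h4 := h j
      by_cases hj : j ∈ M
      · rw [if_pos hj] at h4
        exact ⟨fun _ => hj, fun _ => ⟨mem_univ _, ne_of_mem_erase h4⟩⟩
      · rw [if_neg hj, mem_singleton] at h4
        exact ⟨fun h5 => absurd h4 h5.2, fun h5 => absurd h5 hj⟩
    · rintro ⟨_, h⟩ j
      subst h
      unfold sup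
      by_cases hj : ψ j = T6.o
      · rw [if_neg, mem_singleton]
        · exact hj
        · rw [mem_filter]
          rintro ⟨_, h⟩
          exact h hj
      · rw [if_pos]
        · exact mem_erase.mpr ⟨hj, mem_univ _⟩
        · rw [mem_filter]
          exact ⟨mem_univ _, hj⟩
  rw [h3]
  refine sum_congr rfl fun ψ hψ => ?_
  rw [(mem_filter.mp hψ).2]

open Classical in
theorem full_expand (hF : Fintype.card F = 2 ^ n) (g : F → F) (h : Full g) (a b : F) :
    ∑ ψ : ZMod n → T6, (if (∃ j, ψ j = T6.a) ∧ (∃ j, ψ j = T6.b) then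
      Wide8.cf (c1 n) hF g (sup ψ) else 0) * mo a b ψ = 0 := by
  have h0 := h a b
  have e1 : Zc a b = Zc a b + 0 * a ^ 2 + 0 * b ^ 2 := by ring
  have e2 : Zc a b + a ^ 2 = Zc a b + 1 * a ^ 2 + 0 * b ^ 2 := by ring
  have e3 : Zc a b + b ^ 2 = Zc a b + 0 * a ^ 2 + 1 * b ^ 2 := by ring
  have e4 : Zc a b + a ^ 2 + b ^ 2 = Zc a b + 1 * a ^ 2 + 1 * b ^ 2 := by ring
  rw [e4, e3, e2] at h0
  rw [show g (Zc a b) = g (Zc a b + 0 * a ^ 2 + 0 * b ^ 2) from congrArg g e1] at h0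
  rw [expand_one hF g 0 0 a b (Or.inl rfl) (Or.inl rfl),
    expand_one hF g 1 0 a b (Or.inr rfl) (Or.inl rfl),
    expand_one hF g 0 1 a b (Or.inl rfl) (Or.inr rfl),
    expand_one hF g 1 1 a b (Or.inr rfl) (Or.inr rfl), ← sum_add_distrib, ← sum_add_distrib,
    ← sum_add_distrib] at h0
  refine Eq.trans (sum_congr rfl fun ψ _ => ?_) h0
  rw [prod_tm, prod_tm, prod_tm, prod_tm]
  simp only [prod_ite_zero, prod_ite_one]
  have h2 : (2 : F) = 0 := CharTwo.two_eq_zero
  by_cases ha : ∃ j, ψ j = T6.a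
  · by_cases hb : ∃ j, ψ j = T6.b
    · rw [if_pos ⟨ha, hb⟩, if_pos ha, if_pos hb]
      ring
    · rw [if_neg (fun h => hb h.2), if_pos ha, if_neg hb]
      linear_combination (-(Wide8.cf (c1 n) hF g (sup ψ) * mo a b ψ)) * h2
  · by_cases hb : ∃ j, ψ j = T6.b
    · rw [if_neg (fun h => ha h.1), if_neg ha, if_pos hb]
      linear_combination (-(Wide8.cf (c1 n) hF g (sup ψ) * mo a b ψ)) * h2
    · rw [if_neg (fun h => ha h.1), if_neg ha, if_neg hb]
      linear_combination (-2 * (Wide8.cf (c1 n) hF g (sup ψ) * mo a b ψ)) * h2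

theorem card_iA {ψ : ZMod n → T6} (hb : ∃ j, ψ j = T6.b) : (iA ψ).card < (sup ψ).card := by
  obtain ⟨j, hj⟩ := hb
  apply card_lt_card
  rw [ssubset_iff_of_subset]
  · refine ⟨j, ?_, ?_⟩
    · unfold sup
      rw [mem_filter, hj]
      exact ⟨mem_univ _, by decide⟩
    · unfold iA
      rw [mem_filter, hj]
      rintro ⟨_, _, h⟩
      exact h rfl
  · intro x hx
    unfold iA at hx
    unfold sup
    rw [mem_filter] at hx ⊢
    exact ⟨hx.1, hx.2.1⟩

theorem card_iB {ψ : ZMod n → T6} (ha : ∃ j, ψ j = T6.a) : (iB ψ).card < (sup ψ).card := by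
  obtain ⟨j, hj⟩ := ha
  apply card_lt_card
  rw [ssubset_iff_of_subset]
  · refine ⟨j, ?_, ?_⟩
    · unfold sup
      rw [mem_filter, hj]
      exact ⟨mem_univ _, by decide⟩
    · unfold iB
      rw [mem_filter, hj]
      rintro ⟨_, _, h⟩
      exact h rfl
  · intro x hx
    unfold iB at hx
    unfold sup
    rw [mem_filter] at hx ⊢
    exact ⟨hx.1, hx.2.1⟩

end

theorem stCoef (hMS : StMS) : StCoef := by
  classical
  intro n _ F _ _ _ _ hF k g hn hg hfull U V hU hV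
  -- coefficient at U in the first variable
  have h1 : ∀ b : F, ∑ ψ : ZMod n → T6, ((if (∃ j, ψ j = T6.a) ∧ (∃ j, ψ j = T6.b) then
      Wide8.cf (c1 n) hF g (sup ψ) else 0) *
        Wide8.cf (c1 n) hF (fun a : F => ∏ j ∈ iA ψ, fr 1 (mA ψ j) a) U) *
        (∏ j ∈ iB ψ, fr 1 (mB ψ j) b) = 0 := by
    intro b
    have h2 : (fun a : F => ∑ ψ : ZMod n → T6,
        ((if (∃ j, ψ j = T6.a) ∧ (∃ j, ψ j = T6.b) then
        Wide8.cf (c1 n) hF g (sup ψ) else 0) * (∏ j ∈ iB ψ, fr 1 (mB ψ j) b)) *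
        (∏ j ∈ iA ψ, fr 1 (mA ψ j) a)) = fun _ => 0 := by
      funext a
      refine Eq.trans (sum_congr rfl fun ψ _ => ?_) (full_expand hF g hfull a b)
      unfold mo
      ring
    have h3 := congrArg (fun h => Wide8.cf (c1 n) hF h U) h2
    simp only [cf_sum, cf_smul, cf_zero] at h3
    refine Eq.trans (sum_congr rfl fun ψ _ => ?_) h3
    ring
  have h4 : (fun b : F => ∑ ψ : ZMod n → T6, ((if (∃ j, ψ j = T6.a) ∧ (∃ j, ψ j = T6.b) then
      Wide8.cf (c1 n) hF g (sup ψ) else 0) *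
        Wide8.cf (c1 n) hF (fun a : F => ∏ j ∈ iA ψ, fr 1 (mA ψ j) a) U) *
        (∏ j ∈ iB ψ, fr 1 (mB ψ j) b)) = fun _ => 0 := funext h1
  have h5 := congrArg (fun h => Wide8.cf (c1 n) hF h V) h4
  simp only [cf_sum, cf_smul, cf_zero] at h5
  refine Eq.trans (sum_congr rfl fun ψ _ => ?_) h5
  by_cases hab : (∃ j, ψ j = T6.a) ∧ (∃ j, ψ j = T6.b)
  · rw [if_pos hab]
    by_cases hc : Wide8.cf (c1 n) hF g (sup ψ) = 0
    · rw [hc, ite_self]
      ring
    · have h6 : (sup ψ).card ≤ k + 1 := by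
        by_contra h
        exact hc (hg (sup ψ) (by omega))
      have h7 := card_iA hab.2
      have h8 := card_iB hab.1
      rw [hMS n F hF (iA ψ) (mA ψ) U (by omega), hMS n F hF (iB ψ) (mB ψ) V (by omega)]
      by_cases h9 : Set.InjOn (mA ψ) (iA ψ : Set (ZMod n)) ∧ (iA ψ).image (mA ψ) = U
      · by_cases h10 : Set.InjOn (mB ψ) (iB ψ : Set (ZMod n)) ∧ (iB ψ).image (mB ψ) = V
        · rw [if_pos h9, if_pos h10, if_pos ⟨hab.1, hab.2, h9.1, h9.2, h10.1, h10.2⟩]
          ring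
        · rw [if_neg h10, if_neg (fun h : Cfg U V ψ => h10 ⟨h.2.2.2.2.1, h.2.2.2.2.2⟩)]
          ring
      · rw [if_neg h9, if_neg (fun h : Cfg U V ψ => h9 ⟨h.2.2.1, h.2.2.2.1⟩)]
        ring
  · rw [if_neg hab, if_neg (fun h : Cfg U V ψ => hab ⟨h.1, h.2.1⟩)]
    ring

end Pool.Agent.Lib.MP_eacabd_co.Inv8
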