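import Mathlib
import Pool.Agent.Lib.MP_eacabd_co.Inv8.StmtsI

/-!
Switching of the inverse function: a coefficient with exactly one configuration.
-/

set_option autoImplicit false
set_option linter.unusedSectionVars false

namespace Pool.Agent.Lib.MP_eacabd_co.Inv8

open Finset

namespace CI30

variable {n : ℕ} [NeZero n]

theorem cyc {P : ZMod n → Prop} (h : ∀ j, P j → P (j + 1)) {j : ZMod n} (hj : P j) (i : ZMod n) :
    P i := by
  have h1 : ∀ m : ℕ, P (j + (m : ZMod n)) := by
    intro m
    induction m with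
    | zero => simpa using hj
    | succ m ih =>
      have := h _ ih
      push_cast
      rwa [add_assoc] at this
  have h2 := h1 (i - j).val
  rwa [ZMod.natCast_zmod_val, add_sub_cancel] at h2

theorem one_ne (hn : 3 ≤ n) (j : ZMod n) : j ≠ j + 1 := by
  intro h
  have h1 : (1 : ZMod n) = 0 := by linear_combination -h
  have h2 : ((1 : ℕ) : ZMod n) = 0 := by simpa using h1
  rw [ZMod.natCast_eq_zero_iff] at h2
  have := Nat.le_of_dvd one_pos h2
  omega

theorem mA_a {ψ : ZMod n → T6} {j : ZMod n} (h : ψ j = T6.a) : mA ψ j = j + 1 := by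
  unfold mA; rw [if_pos (Or.inl h)]

theorem mA_p {ψ : ZMod n → T6} {j : ZMod n} (h : ψ j = T6.p) : mA ψ j = j + 1 := by
  unfold mA; rw [if_pos (Or.inr h)]

theorem mA_q {ψ : ZMod n → T6} {j : ZMod n} (h : ψ j = T6.q) : mA ψ j = j := by
  unfold mA; rw [if_neg]; rw [h]; simp

theorem mA_r {ψ : ZMod n → T6} {j : ZMod n} (h : ψ j = T6.r) : mA ψ j = j := by
  unfold mA; rw [if_neg]; rw [h]; simp

theorem mB_b {ψ : ZMod n → T6} {j : ZMod n} (h : ψ j = T6.b) : mB ψ j = j + 1 := by
  unfold mB; rw [if_pos (Or.inl h)]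

theorem mB_q {ψ : ZMod n → T6} {j : ZMod n} (h : ψ j = T6.q) : mB ψ j = j + 1 := by
  unfold mB; rw [if_pos (Or.inr h)]

theorem mB_p {ψ : ZMod n → T6} {j : ZMod n} (h : ψ j = T6.p) : mB ψ j = j := by
  unfold mB; rw [if_neg]; rw [h]; simp

theorem mB_r {ψ : ZMod n → T6} {j : ZMod n} (h : ψ j = T6.r) : mB ψ j = j := by
  unfold mB; rw [if_neg]; rw [h]; simp

theorem mem_iA {ψ : ZMod n → T6} {j : ZMod n} :
    j ∈ iA ψ ↔ ψ j = T6.a ∨ ψ j = T6.p ∨ ψ j = T6.q ∨ ψ j = T6.r := by
  unfold iA
  rw [mem_filter]
  cases ψ j <;> simp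

theorem mem_iB {ψ : ZMod n → T6} {j : ZMod n} :
    j ∈ iB ψ ↔ ψ j = T6.b ∨ ψ j = T6.p ∨ ψ j = T6.q ∨ ψ j = T6.r := by
  unfold iB
  rw [mem_filter]
  cases ψ j <;> simp

/-- the numbers of positions with the types `a` and `b` -/
theorem count {U V : Finset (ZMod n)} {ψ : ZMod n → T6} (h : Cfg U V ψ) :
    (sup ψ).card = U.card + (univ.filter fun j => ψ j = T6.b).card ∧
    (sup ψ).card = V.card + (univ.filter fun j => ψ j = T6.a).card := by
  obtain ⟨_, _, h1, h2, h3, h4⟩ := h
  rw [← h2, card_image_of_injOn h1, ← h4, card_image_of_injOn h3]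
  constructor
  · rw [← card_union_of_disjoint]
    · congr 1
      ext j
      rw [mem_union, mem_iA, sup, mem_filter, mem_filter]
      cases ψ j <;> simp
    · rw [disjoint_left]
      intro j hj hj2
      rw [mem_iA] at hj
      rw [mem_filter] at hj2
      rw [hj2.2] at hj
      simp at hj
  · rw [← card_union_of_disjoint]
    · congr 1
      ext j
      rw [mem_union, mem_iB, sup, mem_filter, mem_filter]
      cases ψ j <;> simp
    · rw [disjoint_left]
      intro j hj hj2
      rw [mem_iB] at hj
      rw [mem_filter] at hj2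
      rw [hj2.2] at hj
      simp at hj

/-- the last element of a cyclic interval, and the previous element -/
theorem pick {J : Finset (ZMod n)} (h2 : 2 ≤ J.card) (hn : J.card < n) :
    ∃ x y : ZMod n, x ∈ J ∧ x + 1 ∉ J ∧ y ∈ J ∧ y ≠ x ∧ (y + 1 = x ∨ y + 1 ∉ J) := by
  obtain ⟨x, hx, hx1⟩ : ∃ x, x ∈ J ∧ x + 1 ∉ J := by
    by_contra hcon
    push Not at hcon
    obtain ⟨j, hj⟩ : J.Nonempty := card_pos.1 (by omega)
    have h3 : J = univ := eq_univ_iff_forall.2 fun i => cyc (P := fun i => i ∈ J) hcon hj i
    rw [h3, card_univ, ZMod.card] at hn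
    exact lt_irrefl _ hn
  obtain ⟨z, hz, hzx⟩ : ∃ z ∈ J, z ≠ x := exists_mem_ne (by omega) x
  have hex : ∃ m : ℕ, 1 ≤ m ∧ x - (m : ZMod n) ∈ J := by
    refine ⟨(x - z).val, ?_, ?_⟩
    · rw [Nat.one_le_iff_ne_zero, Ne, ZMod.val_eq_zero]
      exact sub_ne_zero.2 hzx.symm
    · rw [ZMod.natCast_zmod_val, sub_sub_cancel]
      exact hz
  classical
  obtain ⟨m1, m2⟩ := Nat.find_spec hex
  set m := Nat.find hex with hm
  have hle : m ≤ (x - z).val := by
    apply Nat.find_min'
    refine ⟨?_, ?_⟩
    · rw [Nat.one_le_iff_ne_zero, Ne, ZMod.val_eq_zero]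
      exact sub_ne_zero.2 hzx.symm
    · rw [ZMod.natCast_zmod_val, sub_sub_cancel]
      exact hz
  have hlt : m < n := lt_of_le_of_lt hle (ZMod.val_lt _)
  refine ⟨x, x - (m : ZMod n), hx, hx1, m2, ?_, ?_⟩
  · intro h0
    have h3 : (m : ZMod n) = 0 := by linear_combination -h0
    rw [ZMod.natCast_eq_zero_iff] at h3
    have := Nat.le_of_dvd (by omega) h3
    omega
  · rcases Nat.lt_or_ge 1 m with h3 | h3
    · right
      have h4 := Nat.find_min hex (m := m - 1) (by omega)
      intro h5
      apply h4
      refine ⟨by omega, ?_⟩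
      rw [Nat.cast_sub (by omega), Nat.cast_one]
      have e : x - ((m : ZMod n) - 1) = x - (m : ZMod n) + 1 := by ring
      rw [e]
      exact h5
    · left
      have h4 : m = 1 := by omega
      rw [h4]
      push_cast
      ring

end CI30

open CI30

theorem stCombI : StCombI := by
  intro n _ hn J hJ2 hJn
  classical
  obtain ⟨x, y, hx, hx1, hy, hyx, hy1⟩ := pick hJ2 hJn
  have hne := one_ne (n := n) hn
  set K : Finset (ZMod n) := (J.erase x).erase y with hK
  have memK : ∀ j, j ∈ K ↔ j ≠ y ∧ j ≠ x ∧ j ∈ J := by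
    intro j
    rw [hK, mem_erase, mem_erase]
  have hKc : K.card + 2 = J.card := by
    rw [hK, card_erase_of_mem (mem_erase.2 ⟨hyx, hy⟩), card_erase_of_mem hx]
    omega
  have hx1K : x + 1 ∉ K := fun h => hx1 ((memK _).1 h).2.2
  have hy1K : y + 1 ∉ K := by
    intro h
    rw [memK] at h
    rcases hy1 with h1 | h1
    · exact h.2.1 h1
    · exact h1 h.2.2
  have hxK : x ∉ K := fun h => ((memK _).1 h).2.1 rfl
  have hyK : y ∉ K := fun h => ((memK _).1 h).1 rfl
  have hxy1 : x + 1 ≠ y + 1 := fun h => hyx (add_right_cancel h).symm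
  have hyx1 : y ≠ x + 1 := by
    intro h
    rw [h] at hy
    exact hx1 hy
  set ψ₀ : ZMod n → T6 := fun j =>
    if j = x then T6.a else if j = y then T6.b else if j ∈ K then T6.r else T6.o with hψ₀
  have px : ψ₀ x = T6.a := by simp [hψ₀]
  have py : ψ₀ y = T6.b := by simp [hψ₀, hyx]
  have pK : ∀ j ∈ K, ψ₀ j = T6.r := by
    intro j hj
    have h1 := (memK j).1 hj
    simp [hψ₀, h1.1, h1.2.1, hj]
  have pO : ∀ j, j ≠ x → j ≠ y → j ∉ K → ψ₀ j = T6.o := by
    intro j h1 h2 h3
    simp [hψ₀, h1, h2, h3]
  have cases4 : ∀ j, j = x ∨ j = y ∨ j ∈ K ∨ (j ≠ x ∧ j ≠ y ∧ j ∉ K) := by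
    intro j
    tauto
  refine ⟨insert (x + 1) K, insert (y + 1) K, ψ₀, ?_, ?_, ⟨⟨x, px⟩, ⟨y, py⟩, ?_, ?_, ?_, ?_⟩, ?_, ?_⟩
  · rw [card_insert_of_notMem hx1K]
    omega
  · rw [card_insert_of_notMem hy1K]
    omega
  · intro i hi j hj hij
    rw [mem_coe, mem_iA] at hi hj
    rcases cases4 i with rfl | rfl | hi' | hi'
    · rcases cases4 j with rfl | rfl | hj' | hj'
      · rfl
      · rw [py] at hj
        simp at hj
      · rw [mA_a px, mA_r (pK j hj')] at hij
        exact absurd (hij ▸ hj') hx1K
      · rw [pO j hj'.1 hj'.2.1 hj'.2.2] at hj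
        simp at hj
    · rw [py] at hi
      simp at hi
    · rcases cases4 j with rfl | rfl | hj' | hj'
      · rw [mA_a px, mA_r (pK i hi')] at hij
        exact absurd (hij ▸ hi') hx1K
      · rw [py] at hj
        simp at hj
      · rw [mA_r (pK i hi'), mA_r (pK j hj')] at hij
        exact hij
      · rw [pO j hj'.1 hj'.2.1 hj'.2.2] at hj
        simp at hj
    · rw [pO i hi'.1 hi'.2.1 hi'.2.2] at hi
      simp at hi
  · ext u
    rw [mem_image, mem_insert]
    constructor
    · rintro ⟨j, hj, rfl⟩
      rw [mem_iA] at hj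
      rcases cases4 j with rfl | rfl | hj' | hj'
      · left
        exact mA_a px
      · rw [py] at hj
        simp at hj
      · right
        rw [mA_r (pK j hj')]
        exact hj'
      · rw [pO j hj'.1 hj'.2.1 hj'.2.2] at hj
        simp at hj
    · rintro (rfl | hu)
      · exact ⟨x, mem_iA.2 (Or.inl px), mA_a px⟩
      · exact ⟨u, mem_iA.2 (Or.inr (Or.inr (Or.inr (pK u hu)))), mA_r (pK u hu)⟩
  · intro i hi j hj hij
    rw [mem_coe, mem_iB] at hi hj
    rcases cases4 i with rfl | rfl | hi' | hi'
    · rw [px] at hi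
      simp at hi
    · rcases cases4 j with rfl | rfl | hj' | hj'
      · rw [px] at hj
        simp at hj
      · rfl
      · rw [mB_b py, mB_r (pK j hj')] at hij
        exact absurd (hij ▸ hj') hy1K
      · rw [pO j hj'.1 hj'.2.1 hj'.2.2] at hj
        simp at hj
    · rcases cases4 j with rfl | rfl | hj' | hj'
      · rw [px] at hj
        simp at hj
      · rw [mB_b py, mB_r (pK i hi')] at hij
        exact absurd (hij ▸ hi') hy1K
      · rw [mB_r (pK i hi'), mB_r (pK j hj')] at hij
        exact hij
      · rw [pO j hj'.1 hj'.2.1 hj'.2.2] at hj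
        simp at hj
    · rw [pO i hi'.1 hi'.2.1 hi'.2.2] at hi
      simp at hi
  · ext u
    rw [mem_image, mem_insert]
    constructor
    · rintro ⟨j, hj, rfl⟩
      rw [mem_iB] at hj
      rcases cases4 j with rfl | rfl | hj' | hj'
      · rw [px] at hj
        simp at hj
      · left
        exact mB_b py
      · right
        rw [mB_r (pK j hj')]
        exact hj'
      · rw [pO j hj'.1 hj'.2.1 hj'.2.2] at hj
        simp at hj
    · rintro (rfl | hu)
      · exact ⟨y, mem_iB.2 (Or.inl py), mB_b py⟩
      · exact ⟨u, mem_iB.2 (Or.inr (Or.inr (Or.inr (pK u hu)))), mB_r (pK u hu)⟩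
  · ext j
    rw [sup, mem_filter]
    rcases cases4 j with rfl | rfl | hj' | hj'
    · rw [px]
      simp [hx]
    · rw [py]
      simp [hy]
    · rw [pK j hj']
      simp [((memK j).1 hj').2.2]
    · rw [pO j hj'.1 hj'.2.1 hj'.2.2]
      have : j ∉ J := fun h => hj'.2.2 ((memK j).2 ⟨hj'.2.1, hj'.1, h⟩)
      simp [this]
  · -- uniqueness
    intro ψ hψ hcard
    obtain ⟨cb, ca⟩ := count hψ
    rw [card_insert_of_notMem hx1K] at cb
    rw [card_insert_of_notMem hy1K] at ca
    obtain ⟨⟨x', hx'⟩, ⟨y', hy'⟩, iU, eU, iV, eV⟩ := hψ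
    have ub : ∀ j, ψ j = T6.b → j = y' := by
      intro j hj
      exact card_le_one.1 (show (univ.filter fun j => ψ j = T6.b).card ≤ 1 by omega) j
        (mem_filter.2 ⟨mem_univ _, hj⟩) y' (mem_filter.2 ⟨mem_univ _, hy'⟩)
    have ua : ∀ j, ψ j = T6.a → j = x' := by
      intro j hj
      exact card_le_one.1 (show (univ.filter fun j => ψ j = T6.a).card ≤ 1 by omega) j
        (mem_filter.2 ⟨mem_univ _, hj⟩) x' (mem_filter.2 ⟨mem_univ _, hx'⟩)
    have hx'y' : x' ≠ y' := by
      rintro rfl
      rw [hx'] at hy'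
      simp at hy'
    -- membership
    have inU : ∀ j, j ∈ iA ψ → mA ψ j = x + 1 ∨ mA ψ j ∈ K := by
      intro j hj
      have : mA ψ j ∈ insert (x + 1) K := by
        rw [← eU]
        exact mem_image_of_mem _ hj
      exact mem_insert.1 this
    have inV : ∀ j, j ∈ iB ψ → mB ψ j = y + 1 ∨ mB ψ j ∈ K := by
      intro j hj
      have : mB ψ j ∈ insert (y + 1) K := by
        rw [← eV]
        exact mem_image_of_mem _ hj
      exact mem_insert.1 this
    have covU : ∀ u, u = x + 1 ∨ u ∈ K → ∃ j, j ∈ iA ψ ∧ mA ψ j = u := by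
      intro u hu
      have : u ∈ (iA ψ).image (mA ψ) := by
        rw [eU]
        exact mem_insert.2 hu
      exact mem_image.1 this
    have covV : ∀ u, u = y + 1 ∨ u ∈ K → ∃ j, j ∈ iB ψ ∧ mB ψ j = u := by
      intro u hu
      have : u ∈ (iB ψ).image (mB ψ) := by
        rw [eV]
        exact mem_insert.2 hu
      exact mem_image.1 this
    -- the chains
    have chP : ∀ j, ψ j = T6.p → j = x ∨ ψ (j + 1) = T6.p := by
      intro j hj
      rcases inU j (mem_iA.2 (Or.inr (Or.inl hj))) with h1 | h1
      · rw [mA_p hj] at h1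
        exact Or.inl (add_right_cancel h1)
      · right
        rw [mA_p hj] at h1
        obtain ⟨i, hi, hi2⟩ := covV (j + 1) (Or.inr h1)
        rcases mem_iB.1 hi with h | h | h | h
        · rw [mB_b h] at hi2
          have e := add_right_cancel hi2
          rw [e, hj] at h
          simp at h
        · rw [mB_p h] at hi2
          rw [← hi2]
          exact h
        · rw [mB_q h] at hi2
          have e := add_right_cancel hi2
          rw [e, hj] at h
          simp at h
        · rw [mB_r h] at hi2
          rw [hi2] at h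
          have e : mA ψ j = mA ψ (j + 1) := by rw [mA_p hj, mA_r h]
          exact absurd (iU (mem_coe.2 (mem_iA.2 (Or.inr (Or.inl hj))))
            (mem_coe.2 (mem_iA.2 (Or.inr (Or.inr (Or.inr h))))) e) (hne j)
    have chQ : ∀ j, ψ j = T6.q → j = y ∨ ψ (j + 1) = T6.q := by
      intro j hj
      rcases inV j (mem_iB.2 (Or.inr (Or.inr (Or.inl hj)))) with h1 | h1
      · rw [mB_q hj] at h1
        exact Or.inl (add_right_cancel h1)
      · right
        rw [mB_q hj] at h1
        obtain ⟨i, hi, hi2⟩ := covU (j + 1) (Or.inr h1)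
        rcases mem_iA.1 hi with h | h | h | h
        · rw [mA_a h] at hi2
          have e := add_right_cancel hi2
          rw [e, hj] at h
          simp at h
        · rw [mA_p h] at hi2
          have e := add_right_cancel hi2
          rw [e, hj] at h
          simp at h
        · rw [mA_q h] at hi2
          rw [← hi2]
          exact h
        · rw [mA_r h] at hi2
          rw [hi2] at h
          have e : mB ψ j = mB ψ (j + 1) := by rw [mB_q hj, mB_r h]
          exact absurd (iV (mem_coe.2 (mem_iB.2 (Or.inr (Or.inr (Or.inl hj)))))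
            (mem_coe.2 (mem_iB.2 (Or.inr (Or.inr (Or.inr h))))) e) (hne j)
    -- no `q`
    have noQ : ∀ j, ψ j ≠ T6.q := by
      intro j hj
      by_cases h1 : ψ y = T6.q
      · rcases inU y (mem_iA.2 (Or.inr (Or.inr (Or.inl h1)))) with h2 | h2
        · rw [mA_q h1] at h2
          exact hyx1 h2
        · rw [mA_q h1] at h2
          exact hyK h2
      · have h2 := cyc (P := fun i => ψ i = T6.q) (fun i hi => by
          rcases chQ i hi with h3 | h3
          · rw [h3] at hi
            exact absurd hi h1
          · exact h3) hj x'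
        rw [hx'] at h2
        simp at h2
    -- the elements of `K`
    have onlyP : ∀ j, ψ j = T6.p → j = x := by
      intro j hj
      by_contra hjx
      by_cases h1 : ψ x = T6.p
      · have h4 : x = y + 1 := by
          rcases inV x (mem_iB.2 (Or.inr (Or.inl h1))) with h2 | h2
          · rw [mB_p h1] at h2
            exact h2
          · rw [mB_p h1] at h2
            exact absurd h2 hxK
        have h5 : ψ y ≠ T6.p := by
          intro h6
          rcases inU y (mem_iA.2 (Or.inr (Or.inl h6))) with h2 | h2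
          · rw [mA_p h6, ← h4] at h2
            exact hne x h2
          · rw [mA_p h6, ← h4] at h2
            exact hxK h2
        have h2 := cyc (P := fun i => ψ i = T6.p ∧ i ≠ x) (fun i hi => by
          rcases chP i hi.1 with h3 | h3
          · exact absurd h3 hi.2
          · refine ⟨h3, fun h6 => ?_⟩
            rw [h4] at h6
            have h7 := add_right_cancel h6
            rw [h7] at hi
            exact h5 hi.1) ⟨hj, hjx⟩ x'
        rw [hx'] at h2
        simp at h2
      · have h2 := cyc (P := fun i => ψ i = T6.p) (fun i hi => by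
          rcases chP i hi with h3 | h3
          · rw [h3] at hi
            exact absurd hi h1
          · exact h3) hj x'
        rw [hx'] at h2
        simp at h2
    have rK : ∀ u ∈ K, ψ u = T6.r := by
      intro u hu
      obtain ⟨i, hi, hi2⟩ := covU u (Or.inr hu)
      obtain ⟨j, hj, hj2⟩ := covV u (Or.inr hu)
      rcases mem_iA.1 hi with h | h | h | h
      · rw [mA_a h] at hi2
        rcases mem_iB.1 hj with h' | h' | h' | h'
        · rw [mB_b h', ← hi2] at hj2
          have e := add_right_cancel hj2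
          rw [e, h] at h'
          simp at h'
        · rw [mB_p h'] at hj2
          rw [hj2] at h'
          have := onlyP u h'
          rw [this] at hu
          exact absurd hu hxK
        · exact absurd h' (noQ j)
        · rw [mB_r h'] at hj2
          rw [← hj2]
          exact h'
      · rw [mA_p h] at hi2
        have := onlyP i h
        rw [this] at hi2
        rw [← hi2] at hu
        exact absurd hu hx1K
      · exact absurd h (noQ i)
      · rw [mA_r h] at hi2
        rw [← hi2]
        exact h
    -- no `p`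
    have noP : ∀ j, ψ j ≠ T6.p := by
      intro j hj
      have hjx := onlyP j hj
      rw [hjx] at hj
      rcases inU x' (mem_iA.2 (Or.inl hx')) with h1 | h1
      · rw [mA_a hx'] at h1
        have e := add_right_cancel h1
        rw [e, hj] at hx'
        simp at hx'
      · rw [mA_a hx'] at h1
        have h2 := rK _ h1
        have e : mA ψ x' = mA ψ (x' + 1) := by rw [mA_a hx', mA_r h2]
        exact hne x' (iU (mem_coe.2 (mem_iA.2 (Or.inl hx')))
            (mem_coe.2 (mem_iA.2 (Or.inr (Or.inr (Or.inr h2))))) e)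
    have rin : ∀ j, ψ j = T6.r → j ∈ K := by
      intro j hj
      rcases inU j (mem_iA.2 (Or.inr (Or.inr (Or.inr hj)))) with h1 | h1
      · rcases inV j (mem_iB.2 (Or.inr (Or.inr (Or.inr hj)))) with h2 | h2
        · rw [mA_r hj] at h1
          rw [mB_r hj] at h2
          rw [h1] at h2
          exact absurd h2 hxy1
        · rw [mB_r hj] at h2
          exact h2
      · rw [mA_r hj] at h1
        exact h1
    have hax : x' = x := by
      obtain ⟨i, hi, hi2⟩ := covU (x + 1) (Or.inl rfl)
      rcases mem_iA.1 hi with h | h | h | h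
      · rw [mA_a h] at hi2
        rw [← ua i h]
        exact add_right_cancel hi2
      · exact absurd h (noP i)
      · exact absurd h (noQ i)
      · rw [mA_r h] at hi2
        have := rin i h
        rw [hi2] at this
        exact absurd this hx1K
    have hby : y' = y := by
      obtain ⟨i, hi, hi2⟩ := covV (y + 1) (Or.inl rfl)
      rcases mem_iB.1 hi with h | h | h | h
      · rw [mB_b h] at hi2
        rw [← ub i h]
        exact add_right_cancel hi2
      · exact absurd h (noP i)
      · exact absurd h (noQ i)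
      · rw [mB_r h] at hi2
        have := rin i h
        rw [hi2] at this
        exact absurd this hy1K
    funext j
    rcases cases4 j with rfl | rfl | hj' | hj'
    · rw [px, ← hax]
      exact hx'
    · rw [py, ← hby]
      exact hy'
    · rw [pK j hj']
      exact rK j hj'
    · rw [pO j hj'.1 hj'.2.1 hj'.2.2]
      rcases h : ψ j with _ | _ | _ | _ | _ | _
      · rfl
      · exact absurd ((ua j h).trans hax) hj'.1
      · exact absurd ((ub j h).trans hby) hj'.2.1
      · exact absurd h (noP j)
      · exact absurd h (noQ j)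
      · exact absurd (rin j h) hj'.2.2

end Pool.Agent.Lib.MP_eacabd_co.Inv8
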