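import Mathlib
import Pool.Agent.Lib.MP_eacabd_co.Inv8.StmtsI

/-!
Switching of the inverse function: derivatives and compositions with affine maps.
-/

set_option autoImplicit false

namespace Pool.Agent.Lib.MP_eacabd_co.Inv8

open Finset Pool.Agent.Lib.MP_eacabd_co Pool.Agent.Lib.MP_eacabd_co.Gold8
open Pool.Agent.Lib.MP_eacabd_co.Wide8

theorem Dg_one96 (n : ℕ) [NeZero n] (F : Type) [Field F] [Fintype F] [DecidableEq F]
    [CharP F 2] (hF : Fintype.card F = 2 ^ n) : Dg (c1 n) hF 0 (fun _ => (1 : F)) := by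
  intro M hM
  have e : (fun _ : F => (1 : F)) = X 1 (∅ : Finset (ZMod n)) := by
    funext x
    rw [X_empty]
  rw [e, cf_X, if_neg]
  rintro rfl
  simp at hM

theorem Dg_der96 (n : ℕ) [NeZero n] (F : Type) [Field F] [Fintype F] [DecidableEq F]
    [CharP F 2] (hF : Fintype.card F = 2 ^ n) (d : ℕ) (g : F → F)
    (hg : Dg (c1 n) hF (d + 1) g) (c : F) : Dg (c1 n) hF d (fun x => g x + g (x + c)) := by
  have e0 : ∀ x, Wide8.dN (c1 n) hF ∅ g x = g x := by
    intro x
    rw [eq_sum (c1 n) hF g x]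
    unfold Wide8.dN
    refine sum_congr rfl fun E _ => ?_
    rw [if_pos (disjoint_empty_left E), empty_union]
  have e : (fun x => g x + g (x + c)) =
      fun x => ∑ N ∈ univ.erase (∅ : Finset (ZMod n)), X 1 N c * Wide8.dN (c1 n) hF N g x := by
    funext x
    rw [taylor (c1 n) hF g x c, ← add_sum_erase univ _ (mem_univ (∅ : Finset (ZMod n))),
      X_empty, one_mul, e0, ← add_assoc, CharTwo.add_self_eq_zero, zero_add]
  rw [e]
  refine Dg.sum (c1 n) hF fun N hN => ?_
  refine Dg.smul (c1 n) hF ?_ _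
  refine Dg.dN (c1 n) hF hg N ?_
  have h1 : N.Nonempty := nonempty_iff_ne_empty.2 (mem_erase.1 hN).1
  have h2 := card_pos.2 h1
  omega

theorem Dg_aff96 (n : ℕ) [NeZero n] (F : Type) [Field F] [Fintype F] [DecidableEq F]
    [CharP F 2] (hF : Fintype.card F = 2 ^ n) (a b c : F) (M : Finset (ZMod n)) :
    Dg (c1 n) hF M.card (fun x : F => X 1 M (a * x ^ 2 + b * x + c)) := by
  induction M using Finset.induction_on with
  | empty =>
    have e : (fun x : F => X 1 (∅ : Finset (ZMod n)) (a * x ^ 2 + b * x + c)) =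
        fun _ => (1 : F) := by
      funext x
      rw [X_empty]
    rw [e]
    exact Dg_one96 n F hF
  | insert j M hj ih =>
    have e : (fun x : F => X 1 (insert j M) (a * x ^ 2 + b * x + c)) =
        fun x => (fr 1 j a * (fr 1 (j + 1) x * X 1 M (a * x ^ 2 + b * x + c)) +
          fr 1 j b * (fr 1 j x * X 1 M (a * x ^ 2 + b * x + c))) +
          fr 1 j c * X 1 M (a * x ^ 2 + b * x + c) := by
      funext x
      rw [X_insert 1 hj, fr_add, fr_add, fr_mul, fr_mul, fr_succ hF, pow_one]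
      ring
    rw [e, card_insert_of_notMem hj]
    refine Dg.add (c1 n) hF (Dg.add (c1 n) hF ?_ ?_) ?_
    · exact Dg.smul (c1 n) hF (Dg.frmul (c1 n) hF ih (j + 1)) _
    · exact Dg.smul (c1 n) hF (Dg.frmul (c1 n) hF ih j) _
    · exact Dg.smul (c1 n) hF (Dg.mono (c1 n) hF ih (Nat.le_succ _)) _

theorem Dg_comp96 (n : ℕ) [NeZero n] (F : Type) [Field F] [Fintype F] [DecidableEq F]
    [CharP F 2] (hF : Fintype.card F = 2 ^ n) (d : ℕ) (g : F → F)
    (hg : Dg (c1 n) hF d g) (a b c : F) :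
    Dg (c1 n) hF d (fun x => g (a * x ^ 2 + b * x + c)) := by
  have e : (fun x => g (a * x ^ 2 + b * x + c)) = fun x =>
      ∑ M : Finset (ZMod n), Wide8.cf (c1 n) hF g M * X 1 M (a * x ^ 2 + b * x + c) := by
    funext x
    exact eq_sum (c1 n) hF g _
  rw [e]
  refine Dg.sum (c1 n) hF fun M _ => ?_
  by_cases hM : d < M.card
  · rw [hg M hM]
    simp only [zero_mul]
    exact Dg.zero (c1 n) hF d
  · exact Dg.smul (c1 n) hF (Dg.mono (c1 n) hF (Dg_aff96 n F hF a b c M) (by omega)) _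

theorem stDeg : StDeg := by
  intro n _ F _ _ _ _ hF d g
  exact ⟨fun h c => Dg_der96 n F hF d g h c, fun h a b c => Dg_comp96 n F hF d g h a b c⟩

end Pool.Agent.Lib.MP_eacabd_co.Inv8
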