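import Mathlib
import Pool.Agent.Lib.MP_eacabd_co.Inv8.StmtsI
import Pool.Agent.Lib.MP_eacabd_co.Gold8.Switch8

/-!
Switching of the inverse function: from APN functions to Boolean functions.
-/

set_option autoImplicit false

namespace Pool.Agent.Lib.MP_eacabd_co.Inv8

open Pool.Agent.Lib.MP_eacabd_co Pool.Agent.Lib.MP_eacabd_co.Gold8
open Pool.Agent.Lib.MP_eacabd_co.Wide8

/-- one coordinate of the inverse function is changed -/
theorem ea_core (h : StTopI) {n : ℕ} (hn : 3 ≤ n) {F : Type} [Field F] [Fintype F]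
    [CharP F 2] (hF : Fintype.card F = 2 ^ n) {u : F} {f : F → F} (hf : ∀ x, f x = 0 ∨ f x = 1)
    (hS : BrAux.Sid (fun x => x⁻¹ + u * f x)) :
    EA (fun x => x⁻¹ + u * f x) (fun x => x⁻¹) := by
  classical
  have two : (2 : F) = 0 := CharTwo.two_eq_zero
  have : NeZero n := ⟨by omega⟩
  by_cases hu : u = 0
  · exact ⟨AddEquiv.refl F, AddEquiv.refl F, 0, 0, 0, fun x => by simp [hu]⟩
  have hsq : ∀ x, f x ^ 2 = f x := by
    intro x
    rcases hf x with h0 | h0 <;> rw [h0] <;> norm_num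
  have hB : BlkX (fun y => f (u⁻¹ * y)) := by
    intro x y z w hxy hxz hxw hyz hyw hzw h1 h2
    show f (u⁻¹ * x) + f (u⁻¹ * y) + f (u⁻¹ * z) + f (u⁻¹ * w) = 0
    have h3 : (f (u⁻¹ * x) + f (u⁻¹ * y) + f (u⁻¹ * z) + f (u⁻¹ * w)) ^ 2 =
        f (u⁻¹ * x) + f (u⁻¹ * y) + f (u⁻¹ * z) + f (u⁻¹ * w) := by
      rw [CharTwo.add_sq, CharTwo.add_sq, CharTwo.add_sq, hsq, hsq, hsq, hsq]
    rcases zero_or_one_of_sq h3 with h4 | h4
    · exact h4
    exfalso
    have hu' : u⁻¹ ≠ 0 := inv_ne_zero hu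
    have h5 : (u⁻¹ * x)⁻¹ + (u⁻¹ * y)⁻¹ + (u⁻¹ * z)⁻¹ + (u⁻¹ * w)⁻¹ = u := by
      rw [mul_inv, mul_inv, mul_inv, mul_inv, inv_inv]
      linear_combination u * h2
    rcases hS (u⁻¹ * x) (u⁻¹ * y) (u⁻¹ * z) (u⁻¹ * w) (by linear_combination u⁻¹ * h1)
      (by
        show (u⁻¹ * x)⁻¹ + u * f (u⁻¹ * x) + ((u⁻¹ * y)⁻¹ + u * f (u⁻¹ * y)) +
          ((u⁻¹ * z)⁻¹ + u * f (u⁻¹ * z)) + ((u⁻¹ * w)⁻¹ + u * f (u⁻¹ * w)) = 0
        linear_combination h5 + u * h4 + u * two) with h6 | h6 | h6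
    · exact hxy (mul_left_cancel₀ hu' h6)
    · exact hxz (mul_left_cancel₀ hu' h6)
    · exact hxw (mul_left_cancel₀ hu' h6)
  obtain ⟨v, b, c, hv, hc, hfv⟩ := h n F hF hn (fun y => f (u⁻¹ * y)) (fun y => hf _) hB
  have hfx : ∀ x, f x = tr n (v * u⁻¹ * x⁻¹) + tr n (b * u * x) + c := by
    intro x
    have h1 := hfv (u * x)
    rw [inv_mul_cancel_left₀ hu, mul_inv, ← mul_assoc, ← mul_assoc] at h1
    exact h1
  obtain ⟨L, hL⟩ := invol (u := u) (c := v * u⁻¹) hF (by rw [inv_mul_cancel_right₀ hu, hv])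
  let C : F →+ F :=
    { toFun := fun z => u * tr n (b * u * z)
      map_zero' := by
        rw [mul_zero, BrAux.tr_zero, mul_zero]
      map_add' := by
        intro x y
        rw [mul_add, BrAux.tr_add, mul_add] }
  refine ⟨L, AddEquiv.refl F, C, 0, u * c, fun x => ?_⟩
  show x⁻¹ + u * f x = L ((x + 0)⁻¹) + u * tr n (b * u * x) + u * c
  rw [add_zero, hL, hfx x]
  ring

theorem stInvEA (h : StTopI) : StInvEA := by
  intro n hn F _ _ hF u G₀ f G hG₀ hf hG hapn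
  classical
  have : CharP F 2 := charP_of_card_eq_prime_pow (p := 2) (f := n) (by simpa using hF)
  have two : (2 : F) = 0 := CharTwo.two_eq_zero
  obtain ⟨A, B, C, c, d, hAB⟩ := hG₀
  have hAu : ∀ e : F, (e = 0 ∨ e = 1) → A (A.symm u * e) = u * e := by
    rintro e (rfl | rfl)
    · rw [mul_zero, mul_zero, map_zero]
    · rw [mul_one, mul_one, AddEquiv.apply_symm_apply]
  have e1 : ∀ x, B.symm (B x + c + c) = x := by
    intro x
    rw [add_assoc, CharTwo.add_self_eq_zero, add_zero, AddEquiv.symm_apply_apply]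
  have hEA : EA G (fun z => z⁻¹ + A.symm u * f (B.symm (z + c))) := by
    refine ⟨A, B, C, c, d, fun x => ?_⟩
    show G x = A ((B x + c)⁻¹ + A.symm u * f (B.symm (B x + c + c))) + C x + d
    rw [hG, hAB, e1, map_add, hAu _ (hf x)]
    ring
  have hS := BrAux.sid_ccz (BrAux.ccz_symm (BrAux.ccz_of_ea hEA)) (BrAux.sid_of_apn hapn)
  exact EA.trans hEA (ea_core h hn hF (fun x => hf _) hS)

/-- the vertical direction -/
theorem dir_zero (h : StTopI) {n : ℕ} (hn : 3 ≤ n) {F : Type} [Field F] [Fintype F]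
    (hF : Fintype.card F = 2 ^ n) (L : (F × F) ≃+ (F × F)) (c : F × F) (u : F) (G₀ f G : F → F)
    (hL : (fun p => L p + c) '' {p : F × F | p.2 = (p.1)⁻¹} = {p : F × F | p.2 = G₀ p.1})
    (hv : (L.symm (0, u)).1 = 0) (hf : ∀ x, f x = 0 ∨ f x = 1)
    (hG : ∀ x, G x = G₀ x + u * f x) (hapn : IsAPN G) : CCZ G (fun x => x⁻¹) := by
  classical
  have : CharP F 2 := charP_of_card_eq_prime_pow (p := 2) (f := n) (by simpa using hF)
  obtain ⟨σ, hσ, hσL⟩ := BrAux.param (G := fun x => x⁻¹) hL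
  set v := (L.symm (0, u)).2 with hvdef
  have hLv : ∀ e : F, (e = 0 ∨ e = 1) → L (0, v * e) = (0, u * e) := by
    have h0 : ((0 : F), v) = L.symm (0, u) := Prod.ext hv.symm rfl
    rintro e (rfl | rfl)
    · rw [mul_zero, mul_zero]
      exact map_zero L
    · rw [mul_one, mul_one, h0, AddEquiv.apply_symm_apply]
  have h1 : CCZ (fun x => x⁻¹ + v * f (σ x)) G := by
    refine BrAux.ccz_iff.2 ⟨L, c, σ, hσ, fun x => ?_⟩
    have e1 : ((x, x⁻¹ + v * f (σ x)) : F × F) = (x, x⁻¹) + (0, v * f (σ x)) :=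
      Prod.ext (add_zero x).symm rfl
    rw [e1, map_add, hLv _ (hf _), add_right_comm, hσL x]
    refine Prod.ext (add_zero _) ?_
    show G₀ (σ x) + u * f (σ x) = G (σ x)
    rw [hG]
  have hS := BrAux.sid_ccz h1 (BrAux.sid_of_apn hapn)
  have h2 := ea_core h hn hF (u := v) (f := fun x => f (σ x)) (fun x => hf _) hS
  exact BrAux.ccz_trans (BrAux.ccz_symm h1) (BrAux.ccz_of_ea h2)

theorem stInvDir (h : StTopI) : StInvDir := by
  intro n hn F _ _ hF L c u G₀ f G hL hv hf hG hapn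
  rcases hv with hv | hv
  · exact dir_zero h hn hF L c u G₀ f G hL hv hf hG hapn
  · refine dir_zero h hn hF (AddEquiv.prodComm.trans L) c u G₀ f G ?_ ?_ hf hG hapn
    · rw [← hL]
      ext q
      constructor
      · rintro ⟨p, hp, rfl⟩
        refine ⟨(p.2, p.1), ?_, rfl⟩
        show p.1 = (p.2)⁻¹
        have h1 : p.2 = (p.1)⁻¹ := hp
        rw [h1, inv_inv]
      · rintro ⟨p, hp, rfl⟩
        refine ⟨(p.2, p.1), ?_, rfl⟩
        show p.1 = (p.2)⁻¹
        have h1 : p.2 = (p.1)⁻¹ := hp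
        rw [h1, inv_inv]
    · show (L.symm (0, u)).2 = 0
      exact hv

end Pool.Agent.Lib.MP_eacabd_co.Inv8
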