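import Mathlib
import Pool.Agent.Lib.MP_eacabd_co.Inv8.StmtsI

/-!
Switching of the inverse function: the relation on all pairs.
-/

set_option autoImplicit false

namespace Pool.Agent.Lib.MP_eacabd_co.Inv8

open Finset Pool.Agent.Lib.MP_eacabd_co Pool.Agent.Lib.MP_eacabd_co.Gold8
open Pool.Agent.Lib.MP_eacabd_co.Wide8

theorem stJ (hS : StSupp) (hD : StDeg) : StJ := by
  intro n _ F _ _ _ _ hF k g hk hg hB
  have key : ∀ a : F, a ≠ 0 → a ≠ 1 → ∀ b : F,
      (g (a * b ^ 2 + (a ^ 2 + a) * b + 0) + g (a * b ^ 2 + (a ^ 2 + a) * b + 0 + a ^ 2)) +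
      (g ((a + 1) * b ^ 2 + (a ^ 2 + a) * b + 0) +
        g ((a + 1) * b ^ 2 + (a ^ 2 + a) * b + 0 + (a ^ 2 + 1))) = 0 := by
    intro a ha0 ha1
    have h1 : Dg (c1 n) hF k (fun b => (g (a * b ^ 2 + (a ^ 2 + a) * b + 0) +
        g (a * b ^ 2 + (a ^ 2 + a) * b + 0 + a ^ 2)) +
        (g ((a + 1) * b ^ 2 + (a ^ 2 + a) * b + 0) +
        g ((a + 1) * b ^ 2 + (a ^ 2 + a) * b + 0 + (a ^ 2 + 1)))) :=
      Dg.add (c1 n) hF
        ((hD n F hF k (fun x => g x + g (x + a ^ 2))).2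
          ((hD n F hF k g).1 hg (a ^ 2)) a (a ^ 2 + a) 0)
        ((hD n F hF k (fun x => g x + g (x + (a ^ 2 + 1)))).2
          ((hD n F hF k g).1 hg (a ^ 2 + 1)) (a + 1) (a ^ 2 + a) 0)
    refine ((hS n F hF k _ h1).2 hk a ha0 ha1 ?_)
    intro b hb0 hb1 hba hba1
    have hI : Ind a b := by
      refine ⟨ha0, ha1, hb0, hb1, ?_, ?_⟩
      · intro h
        exact hba (CharTwo.add_eq_zero.1 h).symm
      · intro h
        apply hba1
        rw [← h, ← add_assoc, CharTwo.add_self_eq_zero, zero_add]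
    have h2 := hB a b hI
    have e1 : a * b ^ 2 + (a ^ 2 + a) * b + 0 = Zc a b := by
      unfold Zc
      ring
    have e2 : (a + 1) * b ^ 2 + (a ^ 2 + a) * b + 0 = Zc a b + b ^ 2 := by
      unfold Zc
      ring
    have e3 : Zc a b + b ^ 2 + (a ^ 2 + 1) = Zc a b + a ^ 2 + b ^ 2 + 1 := by
      ring
    show (g (a * b ^ 2 + (a ^ 2 + a) * b + 0) + g (a * b ^ 2 + (a ^ 2 + a) * b + 0 + a ^ 2)) +
      (g ((a + 1) * b ^ 2 + (a ^ 2 + a) * b + 0) +
        g ((a + 1) * b ^ 2 + (a ^ 2 + a) * b + 0 + (a ^ 2 + 1))) = 0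
    rw [e1, e2, e3, ← add_assoc]
    exact h2
  have hinv : ∀ z, g z + g (z + 1) = 0 := by
    refine (hS n F hF k _ ((hD n F hF k g).1 hg 1)).1 (by omega) ?_
    intro z hz0 hz1
    obtain ⟨a, ha⟩ := FiniteField.isSquare_of_char_two (ringChar.eq F 2) z
    have ha' : z = a ^ 2 := by rw [ha, sq]
    have ha0 : a ≠ 0 := by
      rintro rfl
      exact hz0 (by rw [ha']; simp)
    have ha1 : a ≠ 1 := by
      rintro rfl
      exact hz1 (by rw [ha']; simp)
    have h3 := key a ha0 ha1 0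
    have e1 : a * (0 : F) ^ 2 + (a ^ 2 + a) * 0 + 0 = 0 := by ring
    have e2 : (a + 1) * (0 : F) ^ 2 + (a ^ 2 + a) * 0 + 0 = 0 := by ring
    rw [e1, e2, zero_add, zero_add] at h3
    show g z + g (z + 1) = 0
    rw [ha']
    have h4 : g 0 + g 0 = 0 := CharTwo.add_self_eq_zero _
    linear_combination h3 - h4
  have hinv' : ∀ z, g (z + 1) = g z := fun z => (CharTwo.add_eq_zero.1 (hinv z)).symm
  intro a b
  by_cases ha0 : a = 0
  · subst ha0
    have e1 : Zc (0 : F) b = 0 := by unfold Zc; ring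
    have e2 : (0 : F) + 0 ^ 2 = 0 := by ring
    have e3 : (0 : F) + b ^ 2 = b ^ 2 := by ring
    rw [e1, e2, e3, CharTwo.add_self_eq_zero, zero_add, CharTwo.add_self_eq_zero]
  by_cases ha1 : a = 1
  · subst ha1
    have e0 : (1 : F) + b + 1 = b := by
      rw [add_comm (1 : F) b, add_assoc, CharTwo.add_self_eq_zero, add_zero]
    have e1 : Zc (1 : F) b = b ^ 2 := by
      unfold Zc
      rw [e0]
      ring
    have e2 : (1 : F) ^ 2 = 1 := one_pow 2
    have e3 : b ^ 2 + b ^ 2 = 0 := CharTwo.add_self_eq_zero _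
    have e4 : b ^ 2 + 1 + b ^ 2 = (0 : F) + 1 := by
      rw [add_right_comm, e3]
    rw [e1, e2, e4, e3, hinv', hinv']
    rw [CharTwo.add_self_eq_zero, zero_add, CharTwo.add_self_eq_zero]
  · have h3 := key a ha0 ha1 b
    have e1 : a * b ^ 2 + (a ^ 2 + a) * b + 0 = Zc a b := by
      unfold Zc
      ring
    have e2 : (a + 1) * b ^ 2 + (a ^ 2 + a) * b + 0 = Zc a b + b ^ 2 := by
      unfold Zc
      ring
    have e3 : Zc a b + b ^ 2 + (a ^ 2 + 1) = Zc a b + a ^ 2 + b ^ 2 + 1 := by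
      ring
    rw [e1, e2, e3, ← add_assoc, hinv'] at h3
    exact h3

end Pool.Agent.Lib.MP_eacabd_co.Inv8
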