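import Mathlib
import Pool.Agent.Lib.MP_eacabd_co.Inv8.StmtsI

/-!
Switching of the inverse function: the top coefficients of a product of powers.
-/

set_option autoImplicit false

namespace Pool.Agent.Lib.MP_eacabd_co.Inv8

open Finset Pool.Agent.Lib.MP_eacabd_co Pool.Agent.Lib.MP_eacabd_co.Gold8
open Pool.Agent.Lib.MP_eacabd_co.Wide8

theorem ms_iff96 {n : ℕ} (φ : ZMod n → ZMod n) (I : Finset (ZMod n)) (j : ZMod n) (hj : j ∉ I)
    (U : Finset (ZMod n)) :
    (φ j ∈ U ∧ (Set.InjOn φ (I : Set (ZMod n)) ∧ I.image φ = U.erase (φ j))) ↔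
      (Set.InjOn φ ((insert j I : Finset (ZMod n)) : Set (ZMod n)) ∧
        (insert j I).image φ = U) := by
  constructor
  · rintro ⟨h1, h2, h3⟩
    refine ⟨?_, ?_⟩
    · rw [coe_insert, Set.injOn_insert (by simpa using hj)]
      refine ⟨h2, ?_⟩
      intro h4
      have h5 : φ j ∈ I.image φ := by
        rw [mem_image]
        obtain ⟨x, hx, hx2⟩ := h4
        exact ⟨x, by simpa using hx, hx2⟩
      rw [h3] at h5
      exact (notMem_erase (φ j) U) h5
    · rw [image_insert, h3, insert_erase h1]
  · rintro ⟨h1, h2⟩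
    rw [coe_insert, Set.injOn_insert (by simpa using hj)] at h1
    obtain ⟨h3, h4⟩ := h1
    have h5 : φ j ∉ I.image φ := by
      intro h6
      rw [mem_image] at h6
      obtain ⟨x, hx, hx2⟩ := h6
      exact h4 ⟨x, by simpa using hx, hx2⟩
    rw [image_insert] at h2
    refine ⟨?_, h3, ?_⟩
    · rw [← h2]
      exact mem_insert_self _ _
    · rw [← h2, erase_insert h5]

theorem ms96 (n : ℕ) [NeZero n] (F : Type) [Field F] [Fintype F] [DecidableEq F]
    [CharP F 2] (hF : Fintype.card F = 2 ^ n) (φ : ZMod n → ZMod n) (I : Finset (ZMod n)) :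
    ∀ U : Finset (ZMod n), I.card ≤ U.card →
    Wide8.cf (c1 n) hF (fun x : F => ∏ j ∈ I, fr 1 (φ j) x) U =
      if Set.InjOn φ (I : Set (ZMod n)) ∧ I.image φ = U then 1 else 0 := by
  induction I using Finset.induction_on with
  | empty =>
    intro U _
    have e : (fun x : F => ∏ j ∈ (∅ : Finset (ZMod n)), fr 1 (φ j) x) =
        X 1 (∅ : Finset (ZMod n)) := by
      funext x
      rw [X_empty, prod_empty]
    rw [e, cf_X]
    refine if_congr ?_ rfl rfl
    rw [image_empty]
    simp
  | insert j I hj ih =>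
    intro U hU
    rw [card_insert_of_notMem hj] at hU
    have hD : Dg (c1 n) hF I.card (fun x : F => ∏ j ∈ I, fr 1 (φ j) x) := by
      intro E hE
      rw [ih E hE.le, if_neg]
      rintro ⟨_, h2⟩
      have h3 : (I.image φ).card ≤ I.card := card_image_le
      rw [h2] at h3
      omega
    have e : (fun x : F => ∏ k ∈ insert j I, fr 1 (φ k) x) =
        fun x => fr 1 (φ j) x * ∏ k ∈ I, fr 1 (φ k) x := by
      funext x
      rw [prod_insert hj]
    rw [e]
    rcases Nat.lt_or_ge (I.card + 1) U.card with h | h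
    · rw [Dg.frmul (c1 n) hF hD (φ j) U h, if_neg]
      rintro ⟨_, h2⟩
      have h3 : ((insert j I).image φ).card ≤ (insert j I).card := card_image_le
      rw [h2, card_insert_of_notMem hj] at h3
      omega
    · have h' : U.card = I.card + 1 := le_antisymm h hU
      rw [cf_frmul (c1 n) hF hD (φ j) h']
      by_cases hm : φ j ∈ U
      · rw [if_pos hm, ih (U.erase (φ j)) (by rw [card_erase_of_mem hm]; omega)]
        refine if_congr ?_ rfl rfl
        rw [← ms_iff96 φ I j hj U]
        exact (and_iff_right hm).symm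
      · rw [if_neg hm, if_neg]
        intro h2
        exact hm ((ms_iff96 φ I j hj U).2 h2).1

theorem stMS : StMS := by
  intro n _ F _ _ _ _ hF I φ U h
  rw [ms96 n F hF φ I U h]

end Pool.Agent.Lib.MP_eacabd_co.Inv8
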