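import Mathlib
import Pool.Agent.Lib.MP_eacabd_co.Inv8.StmtsI

/-!
Switching of the inverse function: the degree drops to one.
-/

set_option autoImplicit false

namespace Pool.Agent.Lib.MP_eacabd_co.Inv8

open Finset Pool.Agent.Lib.MP_eacabd_co Pool.Agent.Lib.MP_eacabd_co.Gold8
open Pool.Agent.Lib.MP_eacabd_co.Wide8

theorem drop (hJ : StJ) (hCf : StCoef) (hCb : StCombI) (n : ℕ) [NeZero n] (F : Type) [Field F]
    [Fintype F] [DecidableEq F] [CharP F 2] (hF : Fintype.card F = 2 ^ n) (k : ℕ) (g : F → F)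
    (hk : 1 ≤ k) (hn : k + 3 ≤ n) (hg : Dg (c1 n) hF (k + 1) g) (hB : Blk g) :
    Dg (c1 n) hF k g := by
  classical
  intro J hkJ
  rcases Nat.lt_or_ge (k + 1) J.card with h | h
  · exact hg J h
  · have hJc : J.card = k + 1 := by omega
    have hfull := hJ n F hF k g hn hg hB
    obtain ⟨U, V, ψ₀, hU, hV, hψ, hs, huniq⟩ := hCb n (by omega) J (by omega) (by omega)
    have h1 := hCf n F hF k g (by omega) hg hfull U V (by omega) (by omega)
    rw [sum_eq_single ψ₀] at h1
    · rw [if_pos hψ, hs] at h1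
      exact h1
    · intro ψ _ hne
      by_cases h2 : Cfg U V ψ
      · rw [if_pos h2]
        apply hg
        by_contra h3
        exact hne (huniq ψ h2 (by omega))
      · rw [if_neg h2]
    · intro h2
      exact absurd (mem_univ _) h2

theorem stOne (hJ : StJ) (hCf : StCoef) (hCb : StCombI) : StOne := by
  intro n _ F _ _ _ _ hF g hn hg hB
  have h1 : ∀ m : ℕ, m ≤ n - 3 → Dg (c1 n) hF (n - 2 - m) g := by
    intro m
    induction m with
    | zero => intro _; simpa using hg
    | succ m ih =>
      intro hm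
      have h2 := ih (by omega)
      have h3 : n - 2 - m = (n - 2 - (m + 1)) + 1 := by omega
      rw [h3] at h2
      exact drop hJ hCf hCb n F hF (n - 2 - (m + 1)) g (by omega) (by omega) h2 hB
  have h4 := h1 (n - 3) le_rfl
  have h5 : n - 2 - (n - 3) = 1 := by omega
  rwa [h5] at h4

end Pool.Agent.Lib.MP_eacabd_co.Inv8
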