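import Mathlib
import Pool.Agent.Lib.MP_eacabd_co.Inv8.StmtsI

/-!
Switching of the inverse function: functions of small degree with small support vanish.
-/

set_option autoImplicit false
set_option linter.unusedSectionVars false

namespace Pool.Agent.Lib.MP_eacabd_co.Inv8

open Finset Pool.Agent.Lib.MP_eacabd_co Pool.Agent.Lib.MP_eacabd_co.Gold8
open Pool.Agent.Lib.MP_eacabd_co.Wide8

section

variable {n : ℕ} [NeZero n] {F : Type} [Field F] [Fintype F] [DecidableEq F] [CharP F 2]

theorem sum_two_pow : ∑ j : ZMod n, 2 ^ j.val = 2 ^ n - 1 := by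
  have h2 : ∑ j : ZMod n, 2 ^ j.val = ∑ k ∈ range n, 2 ^ k := by
    refine sum_nbij (fun j : ZMod n => j.val) ?_ ?_ ?_ ?_
    · intro j _
      exact mem_range.2 (ZMod.val_lt j)
    · intro a _ b _ h
      exact ZMod.val_injective n h
    · intro k hk
      refine ⟨(k : ZMod n), mem_coe.2 (mem_univ _), ?_⟩
      exact ZMod.val_cast_of_lt (mem_range.1 (mem_coe.1 hk))
    · intro j _
      rfl
  rw [h2]
  exact Nat.geomSum_eq (by norm_num) n |>.trans (by norm_num)

theorem sum_X (hF : Fintype.card F = 2 ^ n) {M : Finset (ZMod n)} (hM : M ≠ univ) :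
    ∑ x : F, Wide8.X 1 M x = 0 := by
  have h1 : ∀ x : F, Wide8.X 1 M x = x ^ (∑ j ∈ M, 2 ^ j.val) := by
    intro x
    unfold Wide8.X fr
    rw [prod_pow_eq_pow_sum]
    congr 1
    exact sum_congr rfl fun j _ => by rw [one_mul]
  rw [sum_congr rfl fun x _ => h1 x]
  apply FiniteField.sum_pow_lt_card_sub_one
  rw [hF, ← sum_two_pow (n := n)]
  obtain ⟨j, -, hj⟩ : ∃ j ∈ (univ : Finset (ZMod n)), j ∉ M := by
    by_contra hcon
    push Not at hcon
    exact hM (eq_univ_iff_forall.2 fun j => hcon j (mem_univ j))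
  exact sum_lt_sum_of_subset (subset_univ M) (mem_univ j) hj (by positivity) fun _ _ _ => by
    positivity

end

theorem stSum : StSum := by
  intro n _ F _ _ _ _ hF d g hd hg
  rw [sum_congr rfl fun x _ => eq_sum (c1 n) hF g x, sum_comm]
  refine sum_eq_zero fun M _ => ?_
  rw [← mul_sum]
  by_cases hM : d < M.card
  · rw [hg M hM, zero_mul]
  · rw [sum_X hF, mul_zero]
    rintro rfl
    rw [card_univ, ZMod.card] at hM
    omega

theorem stSupp : StSupp := by
  intro n _ F _ _ _ _ hF d g hg
  have two : (2 : F) = 0 := CharTwo.two_eq_zero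
  have e0 : ∀ x : F, fr 1 (0 : ZMod n) x = x := fun x => fr_idx_zero hF 1 x
  have e1 : ∀ x : F, fr 1 (1 : ZMod n) x = x ^ 2 := fun x => by
    rw [fr_idx_one hF]
    norm_num
  have g1 : Dg (c1 n) hF (d + 1) (fun x => x * g x) := by
    have h := hg.frmul (c1 n) hF (0 : ZMod n)
    simpa only [e0] using h
  have g2 : Dg (c1 n) hF (d + 1) (fun x => x ^ 2 * g x) := by
    have h := hg.frmul (c1 n) hF (1 : ZMod n)
    simpa only [e1] using h
  have g3 : Dg (c1 n) hF (d + 2) (fun x => x * (x ^ 2 * g x)) := by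
    have h := g2.frmul (c1 n) hF (0 : ZMod n)
    simpa only [e0] using h
  refine ⟨fun hd hs => ?_, fun hd a ha0 ha1 hs => ?_⟩
  · have key : ∀ f : F → F, ∑ x, f x * g x = f 0 * g 0 + f 1 * g 1 := by
      intro f
      rw [← sum_subset (subset_univ ({0, 1} : Finset F))]
      · rw [sum_pair zero_ne_one]
      · intro x _ hx
        simp only [mem_insert, mem_singleton, not_or] at hx
        rw [hs x hx.1 hx.2, mul_zero]
    have s0 : ∑ x, g x = 0 := stSum n F hF d g (by omega) hg
    have s1 : ∑ x, x * g x = 0 := stSum n F hF (d + 1) _ (by omega) g1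
    have k0 := key (fun _ => 1)
    have k1 := key (fun x => x)
    simp only [one_mul] at k0
    rw [s0] at k0
    rw [s1] at k1
    have h1 : g 1 = 0 := by linear_combination -k1
    have h0 : g 0 = 0 := by linear_combination -k0 - h1
    intro x
    by_cases hx0 : x = 0
    · rw [hx0, h0]
    · by_cases hx1 : x = 1
      · rw [hx1, h1]
      · exact hs x hx0 hx1
  · have ha2 : a + 1 ≠ 0 := fun h => ha1 (CharTwo.add_eq_zero.1 h)
    have key : ∀ f : F → F, ∑ x, f x * g x =
        f 0 * g 0 + (f 1 * g 1 + (f a * g a + f (a + 1) * g (a + 1))) := by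
      intro f
      rw [← sum_subset (subset_univ ({0, 1, a, a + 1} : Finset F))]
      · rw [sum_insert, sum_insert, sum_pair]
        · intro h
          exact one_ne_zero (left_eq_add.1 h)
        · simp only [mem_insert, mem_singleton, not_or]
          refine ⟨Ne.symm ha1, fun h => ha0 ?_⟩
          exact right_eq_add.1 h
        · simp only [mem_insert, mem_singleton, not_or]
          exact ⟨zero_ne_one, Ne.symm ha0, Ne.symm ha2⟩
      · intro x _ hx
        simp only [mem_insert, mem_singleton, not_or] at hx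
        rw [hs x hx.1 hx.2.1 hx.2.2.1 hx.2.2.2, mul_zero]
    have s0 : ∑ x, g x = 0 := stSum n F hF d g (by omega) hg
    have s1 : ∑ x, x * g x = 0 := stSum n F hF (d + 1) _ (by omega) g1
    have s2 : ∑ x, x ^ 2 * g x = 0 := stSum n F hF (d + 1) _ (by omega) g2
    have s3 : ∑ x, x * (x ^ 2 * g x) = 0 := stSum n F hF (d + 2) _ (by omega) g3
    have k0 := key (fun _ => 1)
    have k1 := key (fun x => x)
    have k2 := key (fun x => x ^ 2)
    have k3 := key (fun x => x ^ 3)
    simp only [one_mul] at k0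
    rw [s0] at k0
    rw [s1] at k1
    rw [s2] at k2
    rw [sum_congr rfl fun x _ => show x ^ 3 * g x = x * (x ^ 2 * g x) by ring, s3] at k3
    have hq : a * (a + 1) ≠ 0 := mul_ne_zero ha0 ha2
    have h5 : a * (a + 1) * (g a + g (a + 1)) = 0 := by
      linear_combination -k1 - k2 - (g 1 + (a + 1) * g (a + 1)) * two
    have h6 : a * (a + 1) * (a * g a + (a + 1) * g (a + 1)) = 0 := by
      linear_combination -k2 - k3 - (g 1 + (a + 1) ^ 2 * g (a + 1)) * two
    have h7 := (mul_eq_zero.1 h5).resolve_left hq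
    have h8 := (mul_eq_zero.1 h6).resolve_left hq
    have hb : g (a + 1) = 0 := by linear_combination h8 - a * h7
    have hga : g a = 0 := by linear_combination h7 - hb
    have h1 : g 1 = 0 := by linear_combination -k1 - a * hga - (a + 1) * hb
    have h0 : g 0 = 0 := by linear_combination -k0 - h1 - hga - hb
    intro x
    by_cases hx0 : x = 0
    · rw [hx0, h0]
    · by_cases hx1 : x = 1
      · rw [hx1, h1]
      · by_cases hxa : x = a
        · rw [hxa, hga]
        · by_cases hxb : x = a + 1
          · rw [hxb, hb]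
          · exact hs x hx0 hx1 hxa hxb

end Pool.Agent.Lib.MP_eacabd_co.Inv8
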