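import Mathlib
import Pool.Agent.Lib.MP_eacabd_co.Inv8.StmtsI
import Pool.Agent.Lib.MP_eacabd_co.Wide8.IdB
import Pool.Agent.Lib.MP_eacabd_co.Wide8.Rig

/-!
Switching of the inverse function: the form of the Boolean function.
-/

set_option autoImplicit false
set_option linter.unusedSectionVars false

namespace Pool.Agent.Lib.MP_eacabd_co.Inv8

open Finset Pool.Agent.Lib.MP_eacabd_co Pool.Agent.Lib.MP_eacabd_co.Gold8
open Pool.Agent.Lib.MP_eacabd_co.Wide8

section Field

variable {F : Type} [Field F] [CharP F 2]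

theorem add_eq_one_of {x y : F} (h : x = y + 1) : x + y = 1 := by
  have two : (2 : F) = 0 := CharTwo.two_eq_zero
  linear_combination h + y * two

/-- the four points of a block are not zero -/
theorem blk_ne {a b : F} (h : Ind a b) : Zc a b ≠ 0 ∧ Zc a b + a ^ 2 ≠ 0 ∧ Zc a b + b ^ 2 ≠ 0 ∧
    Zc a b + a ^ 2 + b ^ 2 + 1 ≠ 0 := by
  have two : (2 : F) = 0 := CharTwo.two_eq_zero
  obtain ⟨h1, h2, h3, h4, h5, h6⟩ := h
  have a1 : a + 1 ≠ 0 := fun h0 => h2 (CharTwo.add_eq_zero.1 h0)
  have b1 : b + 1 ≠ 0 := fun h0 => h4 (CharTwo.add_eq_zero.1 h0)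
  have ab1 : a + b + 1 ≠ 0 := fun h0 => h6 (CharTwo.add_eq_zero.1 h0)
  refine ⟨?_, ?_, ?_, ?_⟩
  · exact mul_ne_zero (mul_ne_zero h1 h3) ab1
  · have e : Zc a b + a ^ 2 = a * (b + 1) * (a + b) := by
      unfold Zc
      ring
    rw [e]
    exact mul_ne_zero (mul_ne_zero h1 b1) h5
  · have e : Zc a b + b ^ 2 = (a + 1) * b * (a + b) := by
      unfold Zc
      ring
    rw [e]
    exact mul_ne_zero (mul_ne_zero a1 h3) h5
  · have e : Zc a b + a ^ 2 + b ^ 2 + 1 = (a + 1) * (b + 1) * (a + b + 1) := by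
      unfold Zc
      linear_combination (-(a + b + a * b)) * two
    rw [e]
    exact mul_ne_zero (mul_ne_zero a1 b1) ab1

/-- the sum of the inverses on a block -/
theorem blk_inv {a b : F} (h : Ind a b) : (Zc a b)⁻¹ + (Zc a b + a ^ 2)⁻¹ + (Zc a b + b ^ 2)⁻¹
    + (Zc a b + a ^ 2 + b ^ 2 + 1)⁻¹ = 0 := by
  have two : (2 : F) = 0 := CharTwo.two_eq_zero
  obtain ⟨h1, h2, h3, h4, h5, h6⟩ := h
  have a1 : a + 1 ≠ 0 := fun h0 => h2 (CharTwo.add_eq_zero.1 h0)
  have b1 : b + 1 ≠ 0 := fun h0 => h4 (CharTwo.add_eq_zero.1 h0)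
  have ab1 : a + b + 1 ≠ 0 := fun h0 => h6 (CharTwo.add_eq_zero.1 h0)
  have e1 : Zc a b = a * b * (a + b + 1) := rfl
  have e2 : Zc a b + a ^ 2 = a * (b + 1) * (a + b) := by
    unfold Zc
    ring
  have e3 : Zc a b + b ^ 2 = (a + 1) * b * (a + b) := by
    unfold Zc
    ring
  have e4 : Zc a b + a ^ 2 + b ^ 2 + 1 = (a + 1) * (b + 1) * (a + b + 1) := by
    unfold Zc
    linear_combination (-(a + b + a * b)) * two
  rw [e4, e3, e2, e1]
  have e : (a * b * (a + b + 1))⁻¹ + (a * (b + 1) * (a + b))⁻¹ + ((a + 1) * b * (a + b))⁻¹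
      + ((a + 1) * (b + 1) * (a + b + 1))⁻¹
      = ((a + 1) * (b + 1) * (a + b) + b * (a + 1) * (a + b + 1) + a * (b + 1) * (a + b + 1)
        + a * b * (a + b)) * (a * b * (a + 1) * (b + 1) * (a + b) * (a + b + 1))⁻¹ := by
    field_simp
  rw [e]
  have e0 : (a + 1) * (b + 1) * (a + b) + b * (a + 1) * (a + b + 1) + a * (b + 1) * (a + b + 1)
        + a * b * (a + b) = 0 := by
    linear_combination (a + b + a ^ 2 + 3 * a * b + b ^ 2 + 2 * a ^ 2 * b + 2 * a * b ^ 2) * two
  rw [e0, zero_mul]

/-- the relation in the coordinate `1 / x` -/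
theorem blk_of_blkX {f : F → F} (hB : BlkX f) : Blk (fun z => f z⁻¹) := by
  have two : (2 : F) = 0 := CharTwo.two_eq_zero
  intro a b h
  have hi := blk_inv h
  obtain ⟨h1, h2, h3, h4, h5, h6⟩ := h
  have a1 : a + 1 ≠ 0 := fun h0 => h2 (CharTwo.add_eq_zero.1 h0)
  have b1 : b + 1 ≠ 0 := fun h0 => h4 (CharTwo.add_eq_zero.1 h0)
  have ab1 : a + b + 1 ≠ 0 := fun h0 => h6 (CharTwo.add_eq_zero.1 h0)
  have key : ∀ x y d : F, x + y = d ^ 2 → d ≠ 0 → x⁻¹ ≠ y⁻¹ := by
    intro x y d hxy hd h0
    rw [inv_inj] at h0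
    rw [h0, CharTwo.add_self_eq_zero] at hxy
    exact hd (pow_eq_zero_iff (by norm_num) |>.1 hxy.symm)
  refine hB _ _ _ _ (key _ _ a ?_ h1) (key _ _ b ?_ h3) (key _ _ (a + b + 1) ?_ ab1)
    (key _ _ (a + b) ?_ h5) (key _ _ (b + 1) ?_ b1) (key _ _ (a + 1) ?_ a1) hi ?_
  · linear_combination (Zc a b) * two
  · linear_combination (Zc a b) * two
  · linear_combination (Zc a b - a - b - a * b) * two
  · linear_combination (Zc a b - a * b) * two
  · linear_combination (Zc a b + a ^ 2 - b) * two
  · linear_combination (Zc a b + b ^ 2 - a) * two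
  · rw [inv_inv, inv_inv, inv_inv, inv_inv]
    linear_combination (2 * Zc a b + a ^ 2 + b ^ 2) * two

end Field

section Finite

variable {n : ℕ} [NeZero n] {F : Type} [Field F] [Fintype F] [DecidableEq F] [CharP F 2]
variable (hF : Fintype.card F = 2 ^ n)

/-- zero-one values -/
theorem zo_add {x y : F} (hx : x = 0 ∨ x = 1) (hy : y = 0 ∨ y = 1) : x + y = 0 ∨ x + y = 1 := by
  rcases hx with rfl | rfl <;> rcases hy with rfl | rfl
  · left; ring
  · right; ring
  · right; ring
  · left; exact CharTwo.add_self_eq_zero _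

theorem zo_mul {x y : F} (hx : x = 0 ∨ x = 1) (hy : y = 0 ∨ y = 1) : x * y = 0 ∨ x * y = 1 := by
  rcases hx with rfl | rfl
  · left; ring
  · rw [one_mul]; exact hy

theorem zo_sq {x : F} (h : x ^ 2 = x) : x = 0 ∨ x = 1 := by
  have h1 : x * (x - 1) = 0 := by linear_combination h
  rcases mul_eq_zero.1 h1 with h2 | h2
  · exact Or.inl h2
  · exact Or.inr (sub_eq_zero.1 h2)

include hF in
theorem zo_tr (x : F) : tr n x = 0 ∨ tr n x = 1 := zo_sq (tr_sq hF x)

/-- the value at zero -/
def dl (n : ℕ) [NeZero n] {F : Type} [Field F] (x : F) : F := 1 + X 1 (univ : Finset (ZMod n)) x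

include hF in
theorem dl_ne {x : F} (hx : x ≠ 0) : dl n x = 0 := by
  unfold dl
  rw [X_univ (c1 n) hF hx]
  exact CharTwo.add_self_eq_zero _

theorem dl_zero : dl n (0 : F) = 1 := by
  unfold dl
  rw [X_zero 1 univ_nonempty, add_zero]

include hF in
theorem dl_zo (x : F) : dl n x = 0 ∨ dl n x = 1 := by
  by_cases hx : x = 0
  · right
    rw [hx, dl_zero]
  · left
    exact dl_ne hF hx

theorem cf_dl (M : Finset (ZMod n)) (hM : M.Nonempty) :
    Wide8.cf (c1 n) hF (fun x : F => dl n x) M = if univ = M then 1 else 0 := by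
  have e : (fun x : F => dl n x) = fun x => X 1 (∅ : Finset (ZMod n)) x + X 1 (univ : Finset (ZMod n)) x := by
    funext x
    unfold dl
    rw [X_empty]
  rw [e, Wide8.cf_add, cf_X, cf_X, if_neg, zero_add]
  rintro rfl
  exact not_nonempty_empty hM

include hF in
/-- the trace of `b / z` -/
theorem tr_inv (hn : 2 ≤ n) (b z : F) :
    tr n (b * z⁻¹) = ∑ j : ZMod n, fr 1 j b * X 1 (univ.erase j) z := by
  rw [tr_eq_sum (c1 n) hF]
  refine sum_congr rfl fun j _ => ?_
  rw [fr_mul]
  congr 1
  by_cases hz : z = 0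
  · rw [hz, inv_zero, fr_zero', X_zero]
    rw [← card_pos, card_erase_of_mem (mem_univ _), card_univ, ZMod.card]
    omega
  · have h1 : fr 1 j z * X 1 (univ.erase j) z = 1 := by
      rw [← X_insert 1 (notMem_erase j univ), insert_erase (mem_univ j), X_univ (c1 n) hF hz]
    rw [fr_inv]
    exact inv_eq_of_mul_eq_one_right h1

/-- the coefficients of size `n - 1` -/
theorem cf_erase {h : F → F} (h01 : ∀ x, h x = 0 ∨ h x = 1) (j : ZMod n) :
    Wide8.cf (c1 n) hF h (univ.erase j) = fr 1 j (Wide8.cf (c1 n) hF h (univ.erase 0)) := by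
  have h1 : ∀ m : ℕ, Wide8.cf (c1 n) hF h (univ.erase (m : ZMod n))
      = fr 1 (m : ZMod n) (Wide8.cf (c1 n) hF h (univ.erase 0)) := by
    intro m
    induction m with
    | zero => rw [Nat.cast_zero, fr_idx_zero hF]
    | succ m ih =>
      have e : (univ.erase (((m + 1 : ℕ) : ZMod n)) : Finset (ZMod n))
          = (univ.erase (m : ZMod n)).image (· + 1) := by
        ext a
        rw [mem_erase, mem_image]
        constructor
        · rintro ⟨h1, _⟩
          refine ⟨a - 1, mem_erase.2 ⟨?_, mem_univ _⟩, by ring⟩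
          intro h2
          apply h1
          push_cast
          linear_combination h2
        · rintro ⟨c, h1, rfl⟩
          rw [mem_erase] at h1
          refine ⟨?_, mem_univ _⟩
          intro h2
          apply h1.1
          push_cast at h2
          linear_combination h2
      rw [e, Rig7.cf_frob (c1 n) hF h01, ih]
      push_cast
      rw [fr_succ hF, fr_pow, pow_one]
  rw [← ZMod.natCast_zmod_val j]
  exact h1 _

/-- the form of a 0/1-valued function of degree at most one -/
theorem form1 {h : F → F} (h01 : ∀ x, h x = 0 ∨ h x = 1) (hd : Dg (c1 n) hF 1 h) (x : F) :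
    h x = tr n (Wide8.cf (c1 n) hF h {0} * x) + Wide8.cf (c1 n) hF h ∅ := by
  classical
  have inj : Function.Injective (fun j : ZMod n => ({j} : Finset (ZMod n))) :=
    fun a b hab => singleton_injective hab
  rw [eq_sum (c1 n) hF h x, tr_eq_sum (c1 n) hF]
  have h1 : ∀ M : Finset (ZMod n), M ∉ insert ∅ (univ.image fun j : ZMod n => ({j} : Finset (ZMod n))) →
      Wide8.cf (c1 n) hF h M * X 1 M x = 0 := by
    intro M hM
    rw [mem_insert, not_or] at hM
    have h2 : 1 < M.card := by
      by_contra h3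
      rcases Nat.lt_or_ge M.card 1 with h4 | h4
      · exact hM.1 (card_eq_zero.1 (by omega))
      · obtain ⟨j, hj⟩ := card_eq_one.1 (show M.card = 1 by omega)
        exact hM.2 (mem_image.2 ⟨j, mem_univ _, hj.symm⟩)
    rw [hd M h2, zero_mul]
  rw [← sum_subset (subset_univ _) fun M _ hM => h1 M hM, sum_insert, sum_image (fun a _ b _ h => inj h),
    X_empty, mul_one, add_comm]
  · congr 1
    refine sum_congr rfl fun j _ => ?_
    rw [Rig7.single (c1 n) hF h01 j, fr_mul]
    congr 1
    unfold X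
    rw [prod_singleton]
  · rw [mem_image]
    rintro ⟨j, _, hj⟩
    exact singleton_ne_empty j hj

include hF in
/-- there is an element outside a small set -/
theorem ex_out (hn : 3 ≤ n) (S : Finset F) (hS : S.card < 8) : ∃ x : F, x ∉ S := by
  by_contra h
  push Not at h
  have h1 : S = univ := eq_univ_iff_forall.2 h
  rw [h1, card_univ, hF] at hS
  have h2 : 2 ^ 3 ≤ 2 ^ n := Nat.pow_le_pow_right (by norm_num) hn
  omega

end Finite

theorem stTopI (h : StOne) : StTopI := by
  intro n _ F _ _ _ _ hF hn f h01 hB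
  have two : (2 : F) = 0 := CharTwo.two_eq_zero
  set g0 : F → F := fun z => f z⁻¹ with hg0
  have g01 : ∀ z, g0 z = 0 ∨ g0 z = 1 := fun z => h01 _
  have hB0 : Blk g0 := blk_of_blkX hB
  -- the coefficient of the full set
  set c := Wide8.cf (c1 n) hF g0 univ with hcd
  have hcs : c ^ 2 = c := by
    have h1 := Rig7.cf_frob (c1 n) hF g01 (univ : Finset (ZMod n))
    have e : (univ : Finset (ZMod n)).image (· + 1) = univ :=
      image_univ_of_surjective (add_right_surjective 1)
    rw [e, pow_one] at h1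
    exact h1.symm
  have hc01 : c = 0 ∨ c = 1 := zo_sq hcs
  set g1 : F → F := fun z => g0 z + c * dl n z with hg1
  have g11 : ∀ z, g1 z = 0 ∨ g1 z = 1 := fun z => zo_add (g01 z) (zo_mul hc01 (dl_zo hF z))
  have top1 : Wide8.cf (c1 n) hF g1 univ = 0 := by
    rw [hg1, Wide8.cf_add, cf_smul, cf_dl hF _ univ_nonempty, if_pos rfl, mul_one]
    exact CharTwo.add_self_eq_zero _
  set b := Wide8.cf (c1 n) hF g1 (univ.erase 0) with hb
  set g2 : F → F := fun z => g1 z + tr n (b * z⁻¹) with hg2
  have g21 : ∀ z, g2 z = 0 ∨ g2 z = 1 := fun z => zo_add (g11 z) (zo_tr hF _)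
  have hcard : ∀ j : ZMod n, (univ.erase j : Finset (ZMod n)).card = n - 1 := by
    intro j
    rw [card_erase_of_mem (mem_univ _), card_univ, ZMod.card]
  -- the coefficients of the trace
  have ct : ∀ M : Finset (ZMod n), Wide8.cf (c1 n) hF (fun z => tr n (b * z⁻¹)) M
      = ∑ j : ZMod n, if univ.erase j = M then fr 1 j b else 0 := by
    intro M
    have e : (fun z : F => tr n (b * z⁻¹)) = fun z => ∑ j : ZMod n, fr 1 j b * X 1 (univ.erase j) z := by
      funext z
      exact tr_inv hF (by omega) b z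
    rw [e, cf_sum]
    refine sum_congr rfl fun j _ => ?_
    rw [cf_smul, cf_X, mul_ite, mul_one, mul_zero]
  have hd2 : Dg (c1 n) hF (n - 2) g2 := by
    intro M hM
    rw [hg2, Wide8.cf_add, ct]
    have hMn : M.card ≤ n := by
      have := card_le_univ M
      rwa [ZMod.card] at this
    by_cases hMu : M = univ
    · rw [hMu, top1, zero_add]
      refine sum_eq_zero fun j _ => ?_
      rw [if_neg]
      intro h0
      have := congrArg Finset.card h0
      rw [hcard, card_univ, ZMod.card] at this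
      omega
    · have h1 : M.card = n - 1 := by
        have h2 : M.card ≠ n := by
          intro h3
          apply hMu
          rw [← card_eq_iff_eq_univ, ZMod.card]
          exact h3
        omega
      obtain ⟨j, hj⟩ : ∃ j, j ∉ M := by
        by_contra h2
        push Not at h2
        exact hMu (eq_univ_iff_forall.2 h2)
      have h2 : univ.erase j = M := by
        symm
        apply eq_of_subset_of_card_le
        · intro a ha
          rw [mem_erase]
          exact ⟨fun h3 => hj (h3 ▸ ha), mem_univ _⟩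
        · rw [hcard, h1]
      rw [sum_eq_single j, if_pos h2, ← h2, cf_erase hF g11 j]
      · exact CharTwo.add_self_eq_zero _
      · intro i _ hi
        rw [if_neg]
        intro h3
        apply hi
        by_contra h4
        rw [← h2] at h3
        have h5 : j ∈ univ.erase i := mem_erase.2 ⟨fun h6 => h4 h6.symm, mem_univ _⟩
        rw [h3] at h5
        exact notMem_erase _ _ h5
      · intro h3
        exact absurd (mem_univ _) h3
  have tr0 : tr n (0 : F) = 0 := BrAux.tr_zero n
  have hB2 : Blk g2 := by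
    intro a b' hI
    obtain ⟨n1, n2, n3, n4⟩ := blk_ne hI
    have h1 := hB0 a b' hI
    have h2 := blk_inv hI
    have h3 : tr n (b * (Zc a b')⁻¹) + tr n (b * (Zc a b' + a ^ 2)⁻¹) + tr n (b * (Zc a b' + b' ^ 2)⁻¹)
        + tr n (b * (Zc a b' + a ^ 2 + b' ^ 2 + 1)⁻¹) = 0 := by
      rw [← BrAux.tr_add, ← BrAux.tr_add, ← BrAux.tr_add, ← mul_add, ← mul_add, ← mul_add, h2,
        mul_zero, tr0]
    show (g0 _ + c * dl n _ + _) + (g0 _ + c * dl n _ + _) + (g0 _ + c * dl n _ + _)
      + (g0 _ + c * dl n _ + _) = 0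
    rw [dl_ne hF n1, dl_ne hF n2, dl_ne hF n3, dl_ne hF n4]
    linear_combination h1 + h3
  have hd1 : Dg (c1 n) hF 1 g2 := h n F hF g2 hn hd2 hB2
  set v := Wide8.cf (c1 n) hF g2 {0} with hv
  set c' := Wide8.cf (c1 n) hF g2 ∅ with hc'
  have hform : ∀ z, g2 z = tr n (v * z) + c' := form1 hF g21 hd1
  have hc'01 : c' = 0 ∨ c' = 1 := by
    have h1 := hform 0
    rw [mul_zero, tr0, zero_add] at h1
    rw [← h1]
    exact g21 0
  -- the trace of `v`
  have htv : tr n v = 0 := by
    obtain ⟨a, ha⟩ := ex_out hF hn ({0, 1} : Finset F) (lt_of_le_of_lt card_le_two (by norm_num))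
    rw [mem_insert, mem_singleton, not_or] at ha
    obtain ⟨b', hb'⟩ := ex_out hF hn ({0, 1, a, a + 1} : Finset F)
      (lt_of_le_of_lt card_le_four (by norm_num))
    simp only [mem_insert, mem_singleton, not_or] at hb'
    obtain ⟨b0, b1, b2, b3⟩ := hb'
    have hI : Ind a b' := by
      refine ⟨ha.1, ha.2, b0, b1, ?_, ?_⟩
      · intro h0
        exact b2 (CharTwo.add_eq_zero.1 h0).symm
      · intro h0
        apply b3
        linear_combination h0 - a * two
    have h1 := hB2 a b' hI
    rw [hform, hform, hform, hform] at h1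
    have h2 : tr n v = tr n (v * Zc a b') + tr n (v * (Zc a b' + a ^ 2))
        + tr n (v * (Zc a b' + b' ^ 2)) + tr n (v * (Zc a b' + a ^ 2 + b' ^ 2 + 1)) := by
      rw [← BrAux.tr_add, ← BrAux.tr_add, ← BrAux.tr_add]
      congr 1
      linear_combination (-2 * v * Zc a b' - v * a ^ 2 - v * b' ^ 2) * two
    linear_combination h2 + h1 - 2 * c' * two
  -- away from zero
  have hne : ∀ x : F, x ≠ 0 → f x = tr n (v * x⁻¹) + tr n (b * x) + c' := by
    intro x hx
    have h1 := hform x⁻¹
    have h2 : g2 x⁻¹ = f x + tr n (b * x) := by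
      show g0 x⁻¹ + c * dl n x⁻¹ + tr n (b * (x⁻¹)⁻¹) = _
      rw [dl_ne hF (inv_ne_zero hx), inv_inv]
      show f (x⁻¹)⁻¹ + c * 0 + _ = _
      rw [inv_inv, mul_zero, add_zero]
    rw [h2] at h1
    linear_combination h1 + (-tr n (b * x)) * two
  refine ⟨v, b, c', htv, hc'01, fun x => ?_⟩
  by_cases hx : x = 0
  · obtain ⟨t, ht⟩ : ∃ t : F, t ≠ 0 ∧ t ≠ 1 ∧ t ^ 2 + t ≠ 0 ∧ t ^ 2 + t + 1 ≠ 0 := by
      by_contra hcon
      push Not at hcon
      have h1 : ∀ t : F, (t ^ 4 - t : F) = 0 := by
        intro t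
        by_cases h2 : t = 0
        · rw [h2]; ring
        by_cases h3 : t = 1
        · rw [h3]; ring
        have h4 : t ^ 2 + t ≠ 0 := by
          intro h5
          have h6 : t * (t + 1) = 0 := by linear_combination h5
          rcases mul_eq_zero.1 h6 with h7 | h7
          · exact h2 h7
          · exact h3 (CharTwo.add_eq_zero.1 h7)
        have h5 := hcon t h2 h3 h4
        linear_combination (t ^ 2 - t) * h5
      have h2 : Fintype.card F ≤ 4 := by
        have hp : (Polynomial.X ^ 4 - Polynomial.X : Polynomial F) ≠ 0 :=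
          FiniteField.X_pow_card_sub_X_ne_zero F (by norm_num)
        have h3 : (univ : Finset F) ⊆ (Polynomial.X ^ 4 - Polynomial.X : Polynomial F).roots.toFinset := by
          intro t _
          rw [Multiset.mem_toFinset, Polynomial.mem_roots hp, Polynomial.IsRoot.def,
            Polynomial.eval_sub, Polynomial.eval_pow, Polynomial.eval_X]
          exact h1 t
        calc Fintype.card F = (univ : Finset F).card := rfl
          _ ≤ _ := card_le_card h3
          _ ≤ _ := Multiset.toFinset_card_le _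
          _ ≤ _ := Polynomial.card_roots' _
          _ = 4 := FiniteField.X_pow_card_sub_X_natDegree_eq F (by norm_num)
      rw [hF] at h2
      have h3 : 2 ^ 3 ≤ 2 ^ n := Nat.pow_le_pow_right (by norm_num) hn
      omega
    obtain ⟨t0, t1, t2, t3⟩ := ht
    have t4 : t + 1 ≠ 0 := fun h0 => t1 (CharTwo.add_eq_zero.1 h0)
    set s : F := (t ^ 2 + t + 1) / (t ^ 2 + t) with hs
    have s0 : s ≠ 0 := div_ne_zero t3 t2
    have hsum : s⁻¹ + (t * s)⁻¹ + ((t + 1) * s)⁻¹ = 1 := by
      have e : s⁻¹ + (t * s)⁻¹ + ((t + 1) * s)⁻¹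
          = (t * (t + 1) + (t + 1) + t) / (t * (t + 1) * s) := by
        field_simp
      have e2 : t * (t + 1) * s = t ^ 2 + t + 1 := by
        rw [hs]
        have : t ^ 2 + t = t * (t + 1) := by ring
        rw [this] at t2 ⊢
        field_simp
      rw [e, e2, div_eq_one_iff_eq t3]
      linear_combination t * two
    have hx4 := hB 0 s (t * s) ((t + 1) * s) s0.symm (mul_ne_zero t0 s0).symm
      (mul_ne_zero t4 s0).symm
      (by
        intro h0
        apply t1
        have : (t - 1) * s = 0 := by linear_combination -h0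
        rcases mul_eq_zero.1 this with h5 | h5
        · exact sub_eq_zero.1 h5
        · exact absurd h5 s0)
      (by
        intro h0
        apply t0
        have : t * s = 0 := by linear_combination -h0
        rcases mul_eq_zero.1 this with h5 | h5
        · exact h5
        · exact absurd h5 s0)
      (by
        intro h0
        apply s0
        linear_combination -h0)
      (by linear_combination (t * s + s) * two)
      (by rw [inv_zero, zero_add]; exact hsum)
    rw [hne s s0, hne _ (mul_ne_zero t0 s0), hne _ (mul_ne_zero t4 s0)] at hx4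
    have k1 : tr n (v * s⁻¹) + tr n (v * (t * s)⁻¹) + tr n (v * ((t + 1) * s)⁻¹) = 0 := by
      rw [← BrAux.tr_add, ← BrAux.tr_add, ← mul_add, ← mul_add, hsum, mul_one, htv]
    have k2 : tr n (b * s) + tr n (b * (t * s)) + tr n (b * ((t + 1) * s)) = 0 := by
      rw [← BrAux.tr_add, ← BrAux.tr_add]
      have : b * s + b * (t * s) + b * ((t + 1) * s) = 0 := by
        linear_combination (b * s + b * t * s) * two
      rw [this, tr0]
    rw [hx, inv_zero, mul_zero, mul_zero, tr0, zero_add, zero_add]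
    linear_combination hx4 - k1 - k2 - 2 * c' * two
  · exact hne x hx

end Pool.Agent.Lib.MP_eacabd_co.Inv8
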