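import Mathlib
import Pool.Agent.Lib.MP_eacabd_co.Inv8.Supp
import Pool.Agent.Lib.MP_eacabd_co.Inv8.DegI
import Pool.Agent.Lib.MP_eacabd_co.Inv8.JI
import Pool.Agent.Lib.MP_eacabd_co.Inv8.MSI
import Pool.Agent.Lib.MP_eacabd_co.Inv8.CoefI
import Pool.Agent.Lib.MP_eacabd_co.Inv8.CombI
import Pool.Agent.Lib.MP_eacabd_co.Inv8.OneI
import Pool.Agent.Lib.MP_eacabd_co.Inv8.TopI
import Pool.Agent.Lib.MP_eacabd_co.Inv8.EAI
import Pool.Agent.Lib.MP_eacabd_co.Inv8.ChainI

/-!
Switching of the inverse function: all modules together.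
-/

set_option autoImplicit false

namespace Pool.Agent.Lib.MP_eacabd_co.Inv8

theorem topI : StTopI := stTopI (stOne (stJ stSupp stDeg) (stCoef stMS) stCombI)

theorem invEA : StInvEA := stInvEA topI

theorem invDir : StInvDir := stInvDir topI

end Pool.Agent.Lib.MP_eacabd_co.Inv8
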