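import Mathlib
import Pool.Agent.Lib.MP_eacabd_co.Inv8.EAI

/-!
Switching of the inverse function: even dimension.
-/

set_option autoImplicit false

namespace Pool.Agent.Lib.MP_eacabd_co.Inv8

open Pool.Agent.Lib.MP_eacabd_co Pool.Agent.Lib.MP_eacabd_co.Gold8
open Pool.Agent.Lib.MP_eacabd_co.Wide8

/-- a primitive third root of unity -/
theorem exists_omega {n : ℕ} (hn : Even n) {F : Type} [Field F] [Fintype F]
    (hF : Fintype.card F = 2 ^ n) (hn0 : n ≠ 0) : ∃ w : F, w ^ 2 + w + 1 = 0 := by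
  classical
  have h3 : (3 : ℕ) ∣ Fintype.card Fˣ := by
    rw [Fintype.card_units, hF]
    obtain ⟨m, rfl⟩ := hn
    have h4 : (2 : ℕ) ^ (m + m) = 4 ^ m := by
      rw [← two_mul, pow_mul]
      norm_num
    rw [h4]
    have h5 := Nat.sub_dvd_pow_sub_pow 4 1 m
    rw [one_pow] at h5
    exact h5
  have : Fact (Nat.Prime 3) := ⟨Nat.prime_three⟩
  obtain ⟨w, hw⟩ := exists_prime_orderOf_dvd_card 3 h3
  refine ⟨(w : F), ?_⟩
  have h1 : (w : F) ^ 3 = 1 := by
    rw [← Units.val_pow_eq_pow_val, ← hw, pow_orderOf_eq_one, Units.val_one]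
  have h2 : (w : F) - 1 ≠ 0 := by
    intro h
    have h4 : w = 1 := Units.ext (sub_eq_zero.1 h)
    rw [h4, orderOf_one] at hw
    exact absurd hw (by norm_num)
  apply (mul_eq_zero.1 (show ((w : F) - 1) * ((w : F) ^ 2 + w + 1) = 0 by
    linear_combination h1)).resolve_left h2

/-- the inverse function is not APN in even dimension -/
theorem inv_not_sid {n : ℕ} (hn : Even n) {F : Type} [Field F] [Fintype F] [CharP F 2]
    (hF : Fintype.card F = 2 ^ n) (hn0 : n ≠ 0) : ¬ BrAux.Sid (fun x : F => x⁻¹) := by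
  intro h
  have two : (2 : F) = 0 := CharTwo.two_eq_zero
  obtain ⟨w, hw⟩ := exists_omega hn hF hn0
  have hw0 : w ≠ 0 := by
    rintro rfl
    simp at hw
  have hw1 : w + 1 ≠ 0 := by
    intro h1
    have h2 : w = 1 := CharTwo.add_eq_zero.1 h1
    rw [h2] at hw
    have h3 : (1 : F) = 0 := by linear_combination hw - two
    exact one_ne_zero h3
  have e1 : w⁻¹ = w + 1 := inv_eq_of_mul_eq_one_right (by linear_combination hw - two)
  have e2 : (w + 1)⁻¹ = w := by
    rw [← e1, inv_inv]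
  rcases h 0 1 w (w + 1) (by linear_combination (1 + w) * two) (by
    show (0 : F)⁻¹ + 1⁻¹ + w⁻¹ + (w + 1)⁻¹ = 0
    rw [inv_zero, inv_one, e1, e2]
    linear_combination (1 + w) * two) with h1 | h1 | h1
  · exact zero_ne_one h1
  · exact hw0 h1.symm
  · exact hw1 h1.symm

/-- in even dimension no APN function arises -/
theorem stEven (h : StTopI) : ∀ (n : ℕ), 3 ≤ n → Even n → ∀ (F : Type) [Field F] [Fintype F],
    Fintype.card F = 2 ^ n → ∀ (u : F) (G₀ f G : F → F), EA G₀ (fun x => x⁻¹) →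
    (∀ x, f x = 0 ∨ f x = 1) → (∀ x, G x = G₀ x + u * f x) → ¬ IsAPN G := by
  intro n hn he F _ _ hF u G₀ f G hG₀ hf hG hapn
  have : CharP F 2 := charP_of_card_eq_prime_pow (p := 2) (f := n) (by simpa using hF)
  have h1 := stInvEA h n hn F hF u G₀ f G hG₀ hf hG hapn
  exact inv_not_sid he hF (by omega)
    (BrAux.sid_ccz (BrAux.ccz_symm (BrAux.ccz_of_ea h1)) (BrAux.sid_of_apn hapn))

end Pool.Agent.Lib.MP_eacabd_co.Inv8
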